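import Pool.Agent.Helper80.DC.Levels

set_option autoImplicit false

/-!
# DC-7 Chain: the induction over the primes

Induction on `P` (`Finset.induction_on`, for all `m, m'`).
`P = ∅`: `Phi X m = Phi Y m' = 0` (`Phi_nonneg`), `G = ∅`, `c = 0` (`Adm_zero`).
`P = insert p P'`. `eX j = Phi X (m p^j) - Phi X (m p^(j+1))`, `eY` for `Y`, `m'`.
(1) If `eX j ≤ B0` and `eY j ≤ B0` for all `j`: `G = ∅`; take `J` with
`Phi X (m p^J) = Phi Y (m' p^J) = 0` (`Phi_pow_zero`), `c = 0` at `(m p^J, m' p^J)` (`Adm_zero`) and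
`levels` with `D = 0`, `n = J`, `v1 i = q i * v`.
(2) Otherwise let `j0` be least with `B0 < eX j0` or `B0 < eY j0` (`Nat.find`).
(2a) exactly one of the two is `> B0`: `D = 0`: the new state is `(m p^(j0+1), m' p^(j0+1))`; `Phi X +
Phi Y` has dropped by more than `B0` (`Phi_anti` for the other levels), so the induction
hypothesis gives `G' ⊆ P'`; `G = G'`; for `v` coprime to `P` take the costs of the induction
hypothesis for `v` and use `levels` with `D = 0`, `n = j0 + 1`, `v1 i = q i * v * ∏ G'`: for every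
`s ≤ j0` one of `eX s, eY s` is `≤ B0`.
(2b) both `> B0`: the new state is `(m p^(j0+1), m' p^j0)`, the drop is `≥ eX j0 > B0`; `G' ⊆ P'` from
the induction hypothesis, `G = insert p G'`; for `v` take the costs of the induction hypothesis
for `v * p` (coprime to `P'`), i.e. for `q i * (v * p) * ∏ G' = p^1 * (q i * v * ∏ G')`, use
`levels` with `D = 1`, `n = j0` (`eY s ≤ B0` for `s < j0`), and then `Adm_free` (from `m * p^1` to
`m`).
`v1 i = q i * v * ∏ G'` is nonzero mod `p` and injective in `i`: `0 < q i < p`, `q` injective,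
`p ∤ v`, and `p ∤ ∏ G'` since `G'` consists of primes `≠ p`.
In all cases the total is at most
`K η (1+B0) |X||Y| (drop) + K η (1+B0) |X||Y| (Phi at the new state)`.
-/

namespace Pool.Agent.Helper80.DC

open Finset

private theorem chain_unit {K : ℕ} {p : ℕ} (hp : p.Prime) (q : Fin K → ℕ)
    (hq : Function.Injective q) (hq0 : ∀ i, 0 < q i) (hqp : ∀ i, q i < p) (v : ℤ)
    (hv : ¬ (p : ℤ) ∣ v) (G : Finset ℕ) (hG : ∀ r ∈ G, r.Prime) (hpG : p ∉ G) :
    Function.Injective (fun i => (((q i : ℤ) * v * ∏ r ∈ G, (r : ℤ) : ℤ) : ZMod p)) ∧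
      ∀ i, (((q i : ℤ) * v * ∏ r ∈ G, (r : ℤ) : ℤ) : ZMod p) ≠ 0 := by
  have hpz : Prime (p : ℤ) := Nat.prime_iff_prime_int.1 hp
  have hu : ¬ (p : ℤ) ∣ v * ∏ r ∈ G, (r : ℤ) := by
    intro hd
    rcases hpz.dvd_mul.1 hd with h1 | h1
    · exact hv h1
    · obtain ⟨r, hr, hd2⟩ := (Prime.dvd_finsetProd_iff hpz _).1 h1
      have h2 : p ∣ r := Int.natCast_dvd_natCast.1 hd2
      have h3 : p = r := (Nat.prime_dvd_prime_iff_eq hp (hG r hr)).1 h2
      exact hpG (h3 ▸ hr)
  constructor
  · intro i j hij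
    simp only at hij
    rw [← sub_eq_zero, ← Int.cast_sub, ZMod.intCast_zmod_eq_zero_iff_dvd _ p] at hij
    have e : (q i : ℤ) * v * ∏ r ∈ G, (r : ℤ) - (q j : ℤ) * v * ∏ r ∈ G, (r : ℤ) =
        ((q i : ℤ) - q j) * (v * ∏ r ∈ G, (r : ℤ)) := by ring
    rw [e] at hij
    rcases hpz.dvd_mul.1 hij with h1 | h1
    · apply hq
      have h2 : |(q i : ℤ) - q j| < (p : ℤ) := by
        have a1 := hqp i
        have a2 := hqp j
        rw [abs_lt]
        constructor
        · omega
        · omega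
      have h3 := Int.eq_zero_of_abs_lt_dvd h1 h2
      omega
    · exact absurd h1 hu
  · intro i h0
    rw [ZMod.intCast_zmod_eq_zero_iff_dvd _ p, mul_assoc] at h0
    rcases hpz.dvd_mul.1 h0 with h1 | h1
    · have h2 : p ∣ q i := Int.natCast_dvd_natCast.1 h1
      exact absurd (Nat.le_of_dvd (hq0 i) h2) (not_le.2 (hqp i))
    · exact hu h1

/-- [DC-7] -/
theorem chain {η : ℝ} (hη : 0 ≤ η) {K : ℕ} (h : NodeProp η K) (B0 : ℝ) (hB0 : 0 ≤ B0)
    (q : Fin K → ℕ) (hq : Function.Injective q) (hq0 : ∀ i, 0 < q i) (X Y : Finset ℤ)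
    (hX : X.Nonempty) (hY : Y.Nonempty) (P : Finset ℕ) (hP : ∀ p ∈ P, p.Prime)
    (hqP : ∀ p ∈ P, ∀ i, q i < p) :
    ∀ m m' : ℕ, 0 < m → 0 < m' → (∀ p ∈ P, ¬ p ∣ m ∧ ¬ p ∣ m') →
      Phi X m + Phi Y m' ≤ B0 * P.card →
      ∃ G ⊆ P, ∀ v : ℤ, (∀ p ∈ P, ¬ (p : ℤ) ∣ v) →
        ∃ c : Fin K → ℤ → ℤ → ℝ, (∀ i x y, 0 ≤ c i x y) ∧
          (∀ i, Adm X Y m m' ((q i : ℤ) * v * ∏ p ∈ G, (p : ℤ)) (c i)) ∧
          ∑ i, ∑ x ∈ X, ∑ y ∈ Y, c i x y ≤
            K * (η * (1 + B0) * (X.card * Y.card * (Phi X m + Phi Y m'))) := by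
  classical
  have hX0 : (0 : ℝ) ≤ X.card := Nat.cast_nonneg _
  have hY0 : (0 : ℝ) ≤ Y.card := Nat.cast_nonneg _
  have hK0 : (0 : ℝ) ≤ K := Nat.cast_nonneg _
  have hmono : ∀ a b : ℝ, a ≤ b → (K : ℝ) * (η * (1 + B0) * (X.card * Y.card * a)) ≤
      K * (η * (1 + B0) * (X.card * Y.card * b)) := by
    intro a b hab
    have h1 : 0 ≤ η * (1 + B0) := mul_nonneg hη (by linarith)
    exact mul_le_mul_of_nonneg_left (mul_le_mul_of_nonneg_left
      (mul_le_mul_of_nonneg_left hab (mul_nonneg hX0 hY0)) h1) hK0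
  have hadd : ∀ a b : ℝ, (K : ℝ) * (η * (1 + B0) * (X.card * Y.card * a)) +
      K * (η * (1 + B0) * (X.card * Y.card * b)) =
      K * (η * (1 + B0) * (X.card * Y.card * (a + b))) := by
    intro a b
    ring
  induction P using Finset.induction_on with
  | empty =>
    intro m m' hm hm' _ hPhi
    rw [Finset.card_empty, Nat.cast_zero, mul_zero] at hPhi
    have h1 := Phi_nonneg X m
    have h2 := Phi_nonneg Y m'
    have h3 : Phi X m = 0 := by linarith
    have h4 : Phi Y m' = 0 := by linarith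
    refine ⟨∅, Finset.Subset.refl _, fun v _ => ⟨fun _ _ _ => 0, fun _ _ _ => le_rfl,
      fun i => Adm_zero X Y m m' _ h3 h4, ?_⟩⟩
    simp only [Finset.sum_const_zero]
    rw [h3, h4, add_zero, mul_zero, mul_zero, mul_zero]
  | insert p P hpP ih =>
    intro m m' hm hm' hdiv hPhi
    have hp : p.Prime := hP p (Finset.mem_insert_self _ _)
    haveI : Fact p.Prime := ⟨hp⟩
    have hP' : ∀ r ∈ P, r.Prime := fun r hr => hP r (Finset.mem_insert_of_mem hr)
    have hqP' : ∀ r ∈ P, ∀ i, q i < r := fun r hr => hqP r (Finset.mem_insert_of_mem hr)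
    have hqp : ∀ i, q i < p := hqP p (Finset.mem_insert_self _ _)
    obtain ⟨hpm, hpm'⟩ := hdiv p (Finset.mem_insert_self _ _)
    have hdiv' : ∀ r ∈ P, ∀ a b : ℕ, ¬ r ∣ m * p ^ a ∧ ¬ r ∣ m' * p ^ b := by
      intro r hr a b
      obtain ⟨d1, d2⟩ := hdiv r (Finset.mem_insert_of_mem hr)
      have hrp : ∀ a : ℕ, ¬ r ∣ p ^ a := by
        intro a hd
        have h1 := (hP' r hr).dvd_of_dvd_pow hd
        have h2 := (Nat.prime_dvd_prime_iff_eq (hP' r hr) hp).1 h1
        exact hpP (h2 ▸ hr)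
      constructor
      · intro hd
        rcases (hP' r hr).dvd_mul.1 hd with h1 | h1
        · exact d1 h1
        · exact hrp _ h1
      · intro hd
        rcases (hP' r hr).dvd_mul.1 hd with h1 | h1
        · exact d2 h1
        · exact hrp _ h1
    have hpos : ∀ a : ℕ, 0 < m * p ^ a := fun a => Nat.mul_pos hm (pow_pos hp.pos _)
    have hpos' : ∀ a : ℕ, 0 < m' * p ^ a := fun a => Nat.mul_pos hm' (pow_pos hp.pos _)
    rw [Finset.card_insert_of_notMem hpP, Nat.cast_add, Nat.cast_one] at hPhi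
    have antX : ∀ a : ℕ, Phi X (m * p ^ a) ≤ Phi X m := fun a =>
      Phi_anti X (Dvd.intro _ rfl)
    have antY : ∀ a : ℕ, Phi Y (m' * p ^ a) ≤ Phi Y m' := fun a =>
      Phi_anti Y (Dvd.intro _ rfl)
    have antX1 : ∀ a : ℕ, Phi X (m * p ^ (a + 1)) ≤ Phi X (m * p ^ a) := fun a =>
      Phi_anti X (mul_dvd_mul_left m (pow_dvd_pow p (Nat.le_succ _)))
    have antY1 : ∀ a : ℕ, Phi Y (m' * p ^ (a + 1)) ≤ Phi Y (m' * p ^ a) := fun a =>
      Phi_anti Y (mul_dvd_mul_left m' (pow_dvd_pow p (Nat.le_succ _)))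
    by_cases hex : ∃ j : ℕ, B0 < Phi X (m * p ^ j) - Phi X (m * p ^ (j + 1)) ∨
        B0 < Phi Y (m' * p ^ j) - Phi Y (m' * p ^ (j + 1))
    · have hspec := Nat.find_spec hex
      have hmin : ∀ s < Nat.find hex, Phi X (m * p ^ s) - Phi X (m * p ^ (s + 1)) ≤ B0 ∧
          Phi Y (m' * p ^ s) - Phi Y (m' * p ^ (s + 1)) ≤ B0 := by
        intro s hs
        have h1 := Nat.find_min hex hs
        push Not at h1
        exact h1
      generalize Nat.find hex = j0 at hspec hmin
      by_cases hboth : B0 < Phi X (m * p ^ j0) - Phi X (m * p ^ (j0 + 1)) ∧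
          B0 < Phi Y (m' * p ^ j0) - Phi Y (m' * p ^ (j0 + 1))
      · -- both large
        obtain ⟨G, hGP, hG⟩ := ih hP' hqP' (m * p ^ (j0 + 1)) (m' * p ^ j0) (hpos _) (hpos' _)
          (fun r hr => hdiv' r hr _ _) (by
            have a1 := antX j0
            have a2 := antY j0
            have a3 := hboth.1
            linarith)
        have hpG : p ∉ G := fun hh => hpP (hGP hh)
        refine ⟨insert p G, Finset.insert_subset_insert _ hGP, fun v hv => ?_⟩
        have hvp : ¬ (p : ℤ) ∣ v := hv p (Finset.mem_insert_self _ _)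
        obtain ⟨c, hc, hadm, hsum⟩ := hG (v * p) (by
          intro r hr hd
          have hrz : Prime (r : ℤ) := Nat.prime_iff_prime_int.1 (hP' r hr)
          rcases hrz.dvd_mul.1 hd with h1 | h1
          · exact hv r (Finset.mem_insert_of_mem hr) h1
          · have h2 := (Nat.prime_dvd_prime_iff_eq (hP' r hr) hp).1
              (Int.natCast_dvd_natCast.1 h1)
            exact hpP (h2 ▸ hr))
        obtain ⟨hinj, h0⟩ := chain_unit hp q hq hq0 hqp v hvp G
          (fun r hr => hP' r (hGP hr)) hpG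
        obtain ⟨c', hc', hadm', hsum'⟩ := levels hη h B0 hB0 p X Y hX hY m m' hm hm' hpm hpm' 1
          (fun i => (q i : ℤ) * v * ∏ r ∈ G, (r : ℤ)) hinj h0 j0
          (fun s hs => Or.inr (hmin s hs).2) c hc (fun i => by
            have h1 := hadm i
            have e : (q i : ℤ) * (v * p) * ∏ r ∈ G, (r : ℤ) =
                (p : ℤ) ^ 1 * ((q i : ℤ) * v * ∏ r ∈ G, (r : ℤ)) := by ring
            rw [e] at h1
            exact h1)
        refine ⟨c', hc', fun i => ?_, ?_⟩
        · have h1 := hadm' i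
          rw [pow_one] at h1
          have h2 := Adm_free X Y m m' p _ (c' i) hp hpm (Dvd.intro _ (by rw [pow_one])) h1
          have e : (q i : ℤ) * v * ∏ r ∈ insert p G, (r : ℤ) =
              (p : ℤ) ^ 1 * ((q i : ℤ) * v * ∏ r ∈ G, (r : ℤ)) := by
            rw [Finset.prod_insert hpG]
            ring
          rw [e]
          exact h2
        · have h1 := hmono _ _ (show
            (Phi X (m * p ^ (j0 + 1)) + Phi Y (m' * p ^ j0)) +
              ((Phi X (m * p ^ 1) - Phi X (m * p ^ (j0 + 1))) +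
                (Phi Y m' - Phi Y (m' * p ^ j0))) ≤ Phi X m + Phi Y m' by
              have a1 := antX 1
              linarith)
          rw [← hadd] at h1
          linarith
      · -- exactly one large
        have hor : ∀ s < j0 + 1, Phi X (m * p ^ (s + 0)) - Phi X (m * p ^ (s + 0 + 1)) ≤ B0 ∨
            Phi Y (m' * p ^ s) - Phi Y (m' * p ^ (s + 1)) ≤ B0 := by
          intro s hs
          rw [Nat.add_zero]
          rcases Nat.lt_succ_iff_lt_or_eq.1 hs with h1 | h1
          · exact Or.inl (hmin s h1).1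
          · rw [h1]
            by_contra hcon
            push Not at hcon
            exact hboth hcon
        obtain ⟨G, hGP, hG⟩ := ih hP' hqP' (m * p ^ (j0 + 1)) (m' * p ^ (j0 + 1)) (hpos _)
          (hpos' _) (fun r hr => hdiv' r hr _ _) (by
            have a1 := antX j0
            have a2 := antY j0
            have a3 := antX1 j0
            have a4 := antY1 j0
            rcases hspec with h1 | h1
            · linarith
            · linarith)
        have hpG : p ∉ G := fun hh => hpP (hGP hh)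
        refine ⟨G, hGP.trans (Finset.subset_insert _ _), fun v hv => ?_⟩
        have hvp : ¬ (p : ℤ) ∣ v := hv p (Finset.mem_insert_self _ _)
        obtain ⟨c, hc, hadm, hsum⟩ := hG v (fun r hr => hv r (Finset.mem_insert_of_mem hr))
        obtain ⟨hinj, h0⟩ := chain_unit hp q hq hq0 hqp v hvp G
          (fun r hr => hP' r (hGP hr)) hpG
        obtain ⟨c', hc', hadm', hsum'⟩ := levels hη h B0 hB0 p X Y hX hY m m' hm hm' hpm hpm' 0
          (fun i => (q i : ℤ) * v * ∏ r ∈ G, (r : ℤ)) hinj h0 (j0 + 1) hor c hc (fun i => by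
            have h1 := hadm i
            rw [Nat.add_zero, pow_zero, one_mul]
            exact h1)
        refine ⟨c', hc', fun i => ?_, ?_⟩
        · have h1 := hadm' i
          rw [pow_zero, mul_one, pow_zero, one_mul] at h1
          exact h1
        · rw [Nat.add_zero, pow_zero, mul_one] at hsum'
          have h1 := hmono _ _ (show
            (Phi X (m * p ^ (j0 + 1)) + Phi Y (m' * p ^ (j0 + 1))) +
              ((Phi X m - Phi X (m * p ^ (j0 + 1))) +
                (Phi Y m' - Phi Y (m' * p ^ (j0 + 1)))) ≤ Phi X m + Phi Y m' by linarith)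
          rw [← hadd] at h1
          linarith
    · -- no large level
      push Not at hex
      obtain ⟨J1, hJ1⟩ := Phi_pow_zero X hm hp.two_le
      obtain ⟨J2, hJ2⟩ := Phi_pow_zero Y hm' hp.two_le
      refine ⟨∅, Finset.empty_subset _, fun v hv => ?_⟩
      have hvp : ¬ (p : ℤ) ∣ v := hv p (Finset.mem_insert_self _ _)
      obtain ⟨hinj, h0⟩ := chain_unit hp q hq hq0 hqp v hvp ∅
        (fun r hr => absurd hr (Finset.notMem_empty r)) (Finset.notMem_empty p)
      have z1 := hJ1 (max J1 J2) (le_max_left _ _)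
      have z2 := hJ2 (max J1 J2) (le_max_right _ _)
      obtain ⟨c', hc', hadm', hsum'⟩ := levels hη h B0 hB0 p X Y hX hY m m' hm hm' hpm hpm' 0
        (fun i => (q i : ℤ) * v * ∏ r ∈ (∅ : Finset ℕ), (r : ℤ)) hinj h0 (max J1 J2)
        (fun s _ => Or.inl (by rw [Nat.add_zero]; exact (hex s).1)) (fun _ _ _ => 0)
        (fun _ _ _ => le_rfl) (fun i => by
          rw [Nat.add_zero]
          exact Adm_zero X Y _ _ _ z1 z2)
      refine ⟨c', hc', fun i => ?_, ?_⟩
      · have h1 := hadm' i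
        rw [pow_zero, mul_one, pow_zero, one_mul] at h1
        exact h1
      · rw [Nat.add_zero, pow_zero, mul_one, z1, z2, sub_zero, sub_zero] at hsum'
        simp only [Finset.sum_const_zero, zero_add] at hsum'
        exact hsum'

end Pool.Agent.Helper80.DC
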