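import Pool.Agent.Helper80.DC.Defs

set_option autoImplicit false

/-!
# DC-1a Coll: the collision bound

Proof. If `l i * a1 + b1 = l i * a + b` and `a1 ≠ a` then `b1 ≠ b` (`l i ≠ 0`, `ZMod p` is a
field) and `l i = (b - b1) / (a1 - a)`, so for a given pair `(a1, b1)` there is at most one such
`i` (`l` injective). Swap the sums: the left side is
`≤ ∑_{a1 ≠ a} ∑_{b1 ≠ b} f a1 * g b1 = (1 - f a) * (1 - g b)`.
-/

namespace Pool.Agent.Helper80.DC

open Finset

private theorem coll_pair (p : ℕ) [Fact p.Prime] (f g : ZMod p → ℝ) (hf : ∀ a, 0 ≤ f a)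
    (hg : ∀ a, 0 ≤ g a) {K : ℕ} (l : Fin K → ZMod p)
    (hl : Function.Injective l) (hl0 : ∀ i, l i ≠ 0) (a b a1 b1 : ZMod p) :
    ∑ i, (if l i * a1 + b1 = l i * a + b ∧ a1 ≠ a then f a1 * g b1 else 0) ≤
      (if a1 ≠ a then f a1 else 0) * (if b1 ≠ b then g b1 else 0) := by
  have hr : 0 ≤ (if a1 ≠ a then f a1 else 0) * (if b1 ≠ b then g b1 else 0) := by
    apply mul_nonneg
    · split_ifs
      · exact hf a1
      · exact le_refl 0
    · split_ifs
      · exact hg b1
      · exact le_refl 0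
  by_cases ha : a1 = a
  · have h0 : ∀ i ∈ (Finset.univ : Finset (Fin K)),
        (if l i * a1 + b1 = l i * a + b ∧ a1 ≠ a then f a1 * g b1 else 0) = 0 := by
      intro i _
      rw [if_neg]
      intro h
      exact h.2 ha
    rw [Finset.sum_congr rfl h0, Finset.sum_const_zero]
    exact hr
  · by_cases hex : ∃ i, l i * a1 + b1 = l i * a + b
    · obtain ⟨i0, hi0⟩ := hex
      have hb : b1 ≠ b := by
        intro hb
        rw [hb] at hi0
        have h1 : l i0 * a1 = l i0 * a := add_right_cancel hi0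
        exact ha (mul_left_cancel₀ (hl0 i0) h1)
      rw [if_pos ha, if_pos hb]
      have h0 : ∀ i ∈ (Finset.univ : Finset (Fin K)), i ≠ i0 →
          (if l i * a1 + b1 = l i * a + b ∧ a1 ≠ a then f a1 * g b1 else 0) = 0 := by
        intro i _ hi
        rw [if_neg]
        intro h
        apply hi
        apply hl
        have h1 : l i * (a1 - a) = l i0 * (a1 - a) := by
          have e1 : l i * (a1 - a) = b - b1 := by
            linear_combination h.1
          have e2 : l i0 * (a1 - a) = b - b1 := by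
            linear_combination hi0
          rw [e1, e2]
        exact mul_right_cancel₀ (sub_ne_zero.mpr ha) h1
      rw [Finset.sum_eq_single i0 h0 (fun h => absurd (Finset.mem_univ i0) h),
        if_pos ⟨hi0, ha⟩]
    · have h0 : ∀ i ∈ (Finset.univ : Finset (Fin K)),
          (if l i * a1 + b1 = l i * a + b ∧ a1 ≠ a then f a1 * g b1 else 0) = 0 := by
        intro i _
        rw [if_neg]
        intro h
        exact hex ⟨i, h.1⟩
      rw [Finset.sum_congr rfl h0, Finset.sum_const_zero]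
      exact hr

private theorem coll_sum (p : ℕ) [Fact p.Prime] (f : ZMod p → ℝ)
    (hf1 : ∑ a, f a = 1) (a : ZMod p) :
    ∑ a1, (if a1 ≠ a then f a1 else 0) = 1 - f a := by
  have h : ∀ a1 ∈ (Finset.univ : Finset (ZMod p)), (if a1 ≠ a then f a1 else 0) =
      f a1 - (if a1 = a then f a1 else 0) := by
    intro a1 _
    by_cases h1 : a1 = a
    · rw [if_neg (fun h => h h1), if_pos h1, sub_self]
    · rw [if_pos h1, if_neg h1, sub_zero]
  rw [Finset.sum_congr rfl h, Finset.sum_sub_distrib, hf1, Finset.sum_ite_eq' Finset.univ a f,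
    if_pos (Finset.mem_univ a)]

/-- [DC-1a] -/
theorem coll (p : ℕ) [Fact p.Prime] (f g : ZMod p → ℝ) (hf : ∀ a, 0 ≤ f a) (hg : ∀ a, 0 ≤ g a)
    (hf1 : ∑ a, f a = 1) (hg1 : ∑ a, g a = 1) {K : ℕ} (l : Fin K → ZMod p)
    (hl : Function.Injective l) (hl0 : ∀ i, l i ≠ 0) (a b : ZMod p) :
    ∑ i, ∑ a1, ∑ b1, (if l i * a1 + b1 = l i * a + b ∧ a1 ≠ a then f a1 * g b1 else 0) ≤
      (1 - f a) * (1 - g b) := by
  calc ∑ i, ∑ a1, ∑ b1, (if l i * a1 + b1 = l i * a + b ∧ a1 ≠ a then f a1 * g b1 else 0)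
      = ∑ a1, ∑ b1, ∑ i, (if l i * a1 + b1 = l i * a + b ∧ a1 ≠ a then f a1 * g b1 else 0) := by
        rw [Finset.sum_comm]
        apply Finset.sum_congr rfl
        intro a1 _
        rw [Finset.sum_comm]
    _ ≤ ∑ a1, ∑ b1, (if a1 ≠ a then f a1 else 0) * (if b1 ≠ b then g b1 else 0) := by
        apply Finset.sum_le_sum
        intro a1 _
        apply Finset.sum_le_sum
        intro b1 _
        exact coll_pair p f g hf hg l hl hl0 a b a1 b1
    _ = (∑ a1, (if a1 ≠ a then f a1 else 0)) * (∑ b1, (if b1 ≠ b then g b1 else 0)) := by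
        rw [Finset.sum_mul_sum]
    _ = (1 - f a) * (1 - g b) := by
        rw [coll_sum p f hf1 a, coll_sum p g hg1 b]

end Pool.Agent.Helper80.DC
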