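import Mathlib

set_option autoImplicit false

/-!
# Project DC (MP_120218): definitions

See `/team-store/helper80_DC.md` for the paper proof.
-/

namespace Pool.Agent.Helper80.DC

open Finset

/-- entropy of a weight function on a finite type -/
noncomputable def ent {α : Type} [Fintype α] (f : α → ℝ) : ℝ := ∑ a, Real.negMulLog (f a)

/-- The conclusion of the node lemma for the constants `η`, `K`: costs `c i a b` for the pairs
`(a, b)` of residues mod `p` which satisfy Kraft's inequality on each line `l i * a + b = z` and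
whose average (over `i` and over the product law `f ⊗ g`) is at most
`η (h_f + h_g + h_f h_g)`. -/
def NodeProp (η : ℝ) (K : ℕ) : Prop :=
  ∀ (p : ℕ) [Fact p.Prime] (f g : ZMod p → ℝ),
    (∀ a, 0 ≤ f a) → (∀ a, 0 ≤ g a) → ∑ a, f a = 1 → ∑ a, g a = 1 →
    ∀ l : Fin K → ZMod p, Function.Injective l → (∀ i, l i ≠ 0) →
    ∃ c : Fin K → ZMod p → ZMod p → ℝ,
      (∀ i a b, 0 ≤ c i a b) ∧
      (∀ i z, ∑ a, ∑ b,
        (if l i * a + b = z ∧ 0 < f a ∧ 0 < g b then Real.exp (-(c i a b)) else 0) ≤ 1) ∧
      ∑ i, ∑ a, ∑ b, f a * g b * c i a b ≤ K * (η * (ent f + ent g + ent f * ent g))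

/-- number of elements of `X` which have the same `α`-value as `x` -/
def cnt {β : Type} [DecidableEq β] (X : Finset ℤ) (α : ℤ → β) (x : ℤ) : ℕ :=
  (X.filter (fun y => α y = α x)).card

/-- average over `X` of `log` of the size of the residue class mod `m` (within `X`); the entropy
of a random element of `X` which remains when its residue mod `m` is known -/
noncomputable def Phi (X : Finset ℤ) (m : ℕ) : ℝ :=
  (∑ x ∈ X, Real.log (cnt X (fun y => y % (m : ℤ)) x)) / X.card

/-- `c` satisfies Kraft's inequality for the map `(x, y) ↦ x + v y` on every product of a residue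
class of `X` mod `m` with a residue class of `Y` mod `m'`. -/
def Adm (X Y : Finset ℤ) (m m' : ℕ) (v : ℤ) (c : ℤ → ℤ → ℝ) : Prop :=
  ∀ a b w : ℤ, ∑ x ∈ X, ∑ y ∈ Y,
    (if x % (m : ℤ) = a ∧ y % (m' : ℤ) = b ∧ x + v * y = w then Real.exp (-(c x y)) else 0) ≤ 1

/-- `X + v Y` -/
def dil (X Y : Finset ℤ) (v : ℤ) : Finset ℤ := Finset.image₂ (fun x y => x + v * y) X Y

end Pool.Agent.Helper80.DC
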