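import Pool.Agent.Helper80.DC.Defs

set_option autoImplicit false

/-!
# DC-2 NodeSum

The node lemma for all products of an `α`-class of `X` with a `β`-class of `Y` at once.
Proof. For a class `a` of `X` (a value of `α` on `X`) put
`g_a v = #{x ∈ X | α x = a, δ x = v} / #{x ∈ X | α x = a}`, for a class `b` of `Y` put
`f_b u = #{y ∈ Y | β y = b, δ' y = u} / #{y ∈ Y | β y = b}`. Apply `NodeProp` to `f_b, g_a, l` to get
`c i a b u v` (for values `a ∉ α(X)` or `b ∉ β(Y)` put `c = 0`; then the Kraft sum is empty).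
`∑_{x, y} c i (α x) (β y) (δ' y) (δ x) = ∑_{a, b} |X_a| |Y_b| ∑_{u, v} f_b u g_a v c i a b u v`, so
the sum over `i` is `≤ K η ∑_{a, b} |X_a| |Y_b| (h(f_b) + h(g_a) + h(f_b) h(g_a))`, and
`∑_a |X_a| h(g_a) = ∑_{x ∈ X} (log |X_{α x}| - log |X_{α x, δ x}|) = |X| eX`, same for `Y`.
-/

namespace Pool.Agent.Helper80.DC

open Finset

/-- average over `X` of `log |class of x| - log |sub-class of x|` -/
noncomputable def gap {p : ℕ} (X : Finset ℤ) (α : ℤ → ℤ) (δ : ℤ → ZMod p) : ℝ :=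
  (∑ x ∈ X, (Real.log (cnt X α x) - Real.log (cnt X (fun y => (α y, δ y)) x))) / X.card

/-- the law of `δ` on the class `a` of `X` -/
noncomputable def nsw {p : ℕ} (X : Finset ℤ) (α : ℤ → ℤ) (δ : ℤ → ZMod p) (a : ℤ) (v : ZMod p) : ℝ :=
  ((X.filter (fun x => α x = a ∧ δ x = v)).card : ℝ) / ((X.filter (fun x => α x = a)).card : ℝ)

private theorem ns_card_pos {X : Finset ℤ} {α : ℤ → ℤ} {a : ℤ} (ha : a ∈ X.image α) :
    (0 : ℝ) < ((X.filter (fun x => α x = a)).card : ℝ) := by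
  obtain ⟨x, hx, hxa⟩ := Finset.mem_image.mp ha
  exact_mod_cast Finset.card_pos.mpr ⟨x, Finset.mem_filter.mpr ⟨hx, hxa⟩⟩

private theorem ns_avg {p : ℕ} [Fact p.Prime] (X : Finset ℤ) (α : ℤ → ℤ) (δ : ℤ → ZMod p)
    (F : ℤ → ZMod p → ℝ) :
    ∑ x ∈ X, F (α x) (δ x) = ∑ a ∈ X.image α, ((X.filter (fun x => α x = a)).card : ℝ) *
      ∑ v, nsw X α δ a v * F a v := by
  have hmaps : (X : Set ℤ).MapsTo α (X.image α) := by
    intro x hx
    exact Finset.mem_coe.mpr (Finset.mem_image_of_mem α (Finset.mem_coe.mp hx))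
  rw [← Finset.sum_fiberwise_of_maps_to hmaps]
  refine Finset.sum_congr rfl fun a ha => ?_
  have hm := ns_card_pos ha
  have h1 : ∑ x ∈ X.filter (fun x => α x = a), F (α x) (δ x) =
      ∑ x ∈ X.filter (fun x => α x = a), F a (δ x) := by
    refine Finset.sum_congr rfl fun x hx => ?_
    rw [(Finset.mem_filter.mp hx).2]
  have h2 : ∑ x ∈ X.filter (fun x => α x = a), F a (δ x) =
      ∑ v, ∑ x ∈ (X.filter (fun x => α x = a)).filter (fun x => δ x = v), F a (δ x) :=
    (Finset.sum_fiberwise _ _ _).symm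
  rw [h1, h2, Finset.mul_sum]
  refine Finset.sum_congr rfl fun v _ => ?_
  have h3 : ∑ x ∈ (X.filter (fun x => α x = a)).filter (fun x => δ x = v), F a (δ x) =
      ∑ x ∈ X.filter (fun x => α x = a ∧ δ x = v), F a v := by
    rw [Finset.filter_filter]
    refine Finset.sum_congr rfl fun x hx => ?_
    rw [(Finset.mem_filter.mp hx).2.2]
  rw [h3, Finset.sum_const, nsmul_eq_mul, nsw]
  field_simp

private theorem ns_nonneg {p : ℕ} (X : Finset ℤ) (α : ℤ → ℤ) (δ : ℤ → ZMod p) (a : ℤ)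
    (v : ZMod p) : 0 ≤ nsw X α δ a v := by
  unfold nsw
  positivity

private theorem ns_pos_iff {p : ℕ} (X : Finset ℤ) (α : ℤ → ℤ) (δ : ℤ → ZMod p) (a : ℤ)
    (v : ZMod p) : 0 < nsw X α δ a v ↔ ∃ x ∈ X, α x = a ∧ δ x = v := by
  constructor
  · intro h
    have h1 : (X.filter (fun x => α x = a ∧ δ x = v)).card ≠ 0 := by
      intro h0
      rw [nsw, h0, Nat.cast_zero, zero_div] at h
      exact lt_irrefl _ h
    obtain ⟨x, hx⟩ := Finset.card_pos.mp (Nat.pos_of_ne_zero h1)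
    rw [Finset.mem_filter] at hx
    exact ⟨x, hx.1, hx.2⟩
  · rintro ⟨x, hx, hxa, hxv⟩
    have h0 : x ∈ X.filter (fun x => α x = a ∧ δ x = v) := Finset.mem_filter.mpr ⟨hx, hxa, hxv⟩
    have h1 : (0 : ℝ) < ((X.filter (fun x => α x = a ∧ δ x = v)).card : ℝ) := by
      exact_mod_cast Finset.card_pos.mpr ⟨x, h0⟩
    have h2 : a ∈ X.image α := Finset.mem_image.mpr ⟨x, hx, hxa⟩
    exact div_pos h1 (ns_card_pos h2)

private theorem ns_sum {p : ℕ} [Fact p.Prime] (X : Finset ℤ) (α : ℤ → ℤ) (δ : ℤ → ZMod p) {a : ℤ}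
    (ha : a ∈ X.image α) : ∑ v, nsw X α δ a v = 1 := by
  have hm := ns_card_pos ha
  have h1 : ∑ v, (((X.filter (fun x => α x = a ∧ δ x = v)).card : ℕ) : ℝ) =
      ((X.filter (fun x => α x = a)).card : ℝ) := by
    rw [← Nat.cast_sum]
    congr 1
    have h2 := Finset.card_eq_sum_card_fiberwise
      (f := δ) (s := X.filter (fun x => α x = a)) (t := Finset.univ)
      (fun x _ => Finset.mem_coe.mpr (Finset.mem_univ _))
    rw [h2]
    refine Finset.sum_congr rfl fun v _ => ?_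
    rw [Finset.filter_filter]
  unfold nsw
  rw [← Finset.sum_div, h1, div_self hm.ne']

private theorem ns_ent {p : ℕ} [Fact p.Prime] (X : Finset ℤ) (hX : X.Nonempty) (α : ℤ → ℤ)
    (δ : ℤ → ZMod p) :
    ∑ a ∈ X.image α, ((X.filter (fun x => α x = a)).card : ℝ) * ent (nsw X α δ a) =
      X.card * gap X α δ := by
  have hc : (X.card : ℝ) ≠ 0 := by
    exact_mod_cast (Finset.card_pos.mpr hX).ne'
  have h0 : X.card * gap X α δ = ∑ x ∈ X, (fun (a : ℤ) (v : ZMod p) =>
      Real.log ((X.filter (fun x => α x = a)).card : ℝ) -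
      Real.log ((X.filter (fun x => α x = a ∧ δ x = v)).card : ℝ)) (α x) (δ x) := by
    rw [gap, mul_div_cancel₀ _ hc]
    refine Finset.sum_congr rfl fun x _ => ?_
    have h1 : cnt X α x = (X.filter (fun y => α y = α x)).card := rfl
    have h2 : cnt X (fun y => (α y, δ y)) x =
        (X.filter (fun y => α y = α x ∧ δ y = δ x)).card := by
      unfold cnt
      simp only [Prod.mk.injEq]
    rw [h1, h2]
  rw [h0, ns_avg X α δ (fun (a : ℤ) (v : ZMod p) =>
      Real.log ((X.filter (fun x => α x = a)).card : ℝ) -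
      Real.log ((X.filter (fun x => α x = a ∧ δ x = v)).card : ℝ))]
  refine Finset.sum_congr rfl fun a ha => ?_
  congr 1
  unfold ent
  refine Finset.sum_congr rfl fun v _ => ?_
  have hm := ns_card_pos ha
  rcases eq_or_ne ((X.filter (fun x => α x = a ∧ δ x = v)).card) 0 with h | h
  · have h1 : nsw X α δ a v = 0 := by rw [nsw, h, Nat.cast_zero, zero_div]
    rw [h1, Real.negMulLog_zero, zero_mul]
  · have h1 : (((X.filter (fun x => α x = a ∧ δ x = v)).card : ℕ) : ℝ) ≠ 0 := by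
      exact_mod_cast h
    rw [Real.negMulLog, nsw, Real.log_div h1 hm.ne']
    ring

/-- [DC-2] -/
theorem nodeSum {η : ℝ} {K : ℕ} (h : NodeProp η K) (p : ℕ) [Fact p.Prime] (X Y : Finset ℤ)
    (hX : X.Nonempty) (hY : Y.Nonempty) (α β : ℤ → ℤ) (δ δ' : ℤ → ZMod p)
    (l : Fin K → ZMod p) (hl : Function.Injective l) (hl0 : ∀ i, l i ≠ 0) :
    ∃ c : Fin K → ℤ → ℤ → ZMod p → ZMod p → ℝ,
      (∀ i a b u v, 0 ≤ c i a b u v) ∧
      (∀ i a b z, ∑ u, ∑ v,
        (if l i * u + v = z ∧ (∃ y ∈ Y, β y = b ∧ δ' y = u) ∧ (∃ x ∈ X, α x = a ∧ δ x = v) then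
          Real.exp (-(c i a b u v)) else 0) ≤ 1) ∧
      ∑ i, ∑ x ∈ X, ∑ y ∈ Y, c i (α x) (β y) (δ' y) (δ x) ≤
        K * (η * (X.card * Y.card * (gap X α δ + gap Y β δ' + gap X α δ * gap Y β δ'))) := by
  classical
  have key : ∀ a b : ℤ, ∃ c : Fin K → ZMod p → ZMod p → ℝ,
      (∀ i u v, 0 ≤ c i u v) ∧
      (∀ i z, ∑ u, ∑ v,
        (if l i * u + v = z ∧ (∃ y ∈ Y, β y = b ∧ δ' y = u) ∧ (∃ x ∈ X, α x = a ∧ δ x = v) then
          Real.exp (-(c i u v)) else 0) ≤ 1) ∧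
      (a ∈ X.image α → b ∈ Y.image β → ∑ i, ∑ u, ∑ v, nsw Y β δ' b u * nsw X α δ a v * c i u v ≤
        K * (η * (ent (nsw Y β δ' b) + ent (nsw X α δ a) +
          ent (nsw Y β δ' b) * ent (nsw X α δ a)))) := by
    intro a b
    by_cases hab : a ∈ X.image α ∧ b ∈ Y.image β
    · obtain ⟨ha, hb⟩ := hab
      obtain ⟨c, hc0, hc1, hc2⟩ := h p (nsw Y β δ' b) (nsw X α δ a)
        (ns_nonneg Y β δ' b) (ns_nonneg X α δ a) (ns_sum Y β δ' hb) (ns_sum X α δ ha) l hl hl0
      refine ⟨c, hc0, fun i z => ?_, fun _ _ => hc2⟩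
      refine le_trans (le_of_eq ?_) (hc1 i z)
      refine Finset.sum_congr rfl fun u _ => Finset.sum_congr rfl fun v _ => ?_
      simp only [ns_pos_iff]
    · refine ⟨fun _ _ _ => 0, fun _ _ _ => le_refl _, fun i z => ?_, fun ha hb => absurd ⟨ha, hb⟩ hab⟩
      refine le_trans (le_of_eq ?_) zero_le_one
      refine Finset.sum_eq_zero fun u _ => Finset.sum_eq_zero fun v _ => ?_
      rw [if_neg]
      rintro ⟨-, ⟨y, hy, hyb, -⟩, ⟨x, hx, hxa, -⟩⟩
      exact hab ⟨Finset.mem_image.mpr ⟨x, hx, hxa⟩, Finset.mem_image.mpr ⟨y, hy, hyb⟩⟩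
  choose c hc0 hc1 hc2 using key
  refine ⟨fun i a b u v => c a b i u v, fun i a b u v => hc0 a b i u v,
    fun i a b z => hc1 a b i z, ?_⟩
  have hsum : ∀ i : Fin K, ∑ x ∈ X, ∑ y ∈ Y, c (α x) (β y) i (δ' y) (δ x) =
      ∑ a ∈ X.image α, ∑ b ∈ Y.image β, ((X.filter (fun x => α x = a)).card : ℝ) *
        ((Y.filter (fun y => β y = b)).card : ℝ) *
        ∑ u, ∑ v, nsw Y β δ' b u * nsw X α δ a v * c a b i u v := by
    intro i
    have e1 : ∀ x : ℤ, ∑ y ∈ Y, c (α x) (β y) i (δ' y) (δ x) =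
        ∑ b ∈ Y.image β, ((Y.filter (fun y => β y = b)).card : ℝ) *
          ∑ u, nsw Y β δ' b u * c (α x) b i u (δ x) := fun x =>
      ns_avg Y β δ' (fun b u => c (α x) b i u (δ x))
    simp only [e1]
    rw [ns_avg X α δ (fun a v => ∑ b ∈ Y.image β, ((Y.filter (fun y => β y = b)).card : ℝ) *
          ∑ u, nsw Y β δ' b u * c a b i u v)]
    refine Finset.sum_congr rfl fun a _ => ?_
    simp only [Finset.mul_sum]
    rw [Finset.sum_comm]
    refine Finset.sum_congr rfl fun b _ => ?_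
    rw [Finset.sum_comm]
    refine Finset.sum_congr rfl fun u _ => Finset.sum_congr rfl fun v _ => ?_
    ring
  have hgX := ns_ent X hX α δ
  have hgY := ns_ent Y hY β δ'
  have hcX : ∑ a ∈ X.image α, ((X.filter (fun x => α x = a)).card : ℝ) = X.card := by
    have := ns_avg X α δ (fun _ _ => (1 : ℝ))
    simp only [Finset.sum_const, nsmul_eq_mul, mul_one] at this
    rw [this]
    refine Finset.sum_congr rfl fun a ha => ?_
    rw [ns_sum X α δ ha, mul_one]
  have hcY : ∑ b ∈ Y.image β, ((Y.filter (fun y => β y = b)).card : ℝ) = Y.card := by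
    have := ns_avg Y β δ' (fun _ _ => (1 : ℝ))
    simp only [Finset.sum_const, nsmul_eq_mul, mul_one] at this
    rw [this]
    refine Finset.sum_congr rfl fun a ha => ?_
    rw [ns_sum Y β δ' ha, mul_one]
  have hfin : ∑ a ∈ X.image α, ∑ b ∈ Y.image β, ((X.filter (fun x => α x = a)).card : ℝ) *
        ((Y.filter (fun y => β y = b)).card : ℝ) *
        (K * (η * (ent (nsw Y β δ' b) + ent (nsw X α δ a) +
          ent (nsw Y β δ' b) * ent (nsw X α δ a)))) =
      K * (η * (X.card * Y.card * (gap X α δ + gap Y β δ' + gap X α δ * gap Y β δ'))) := by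
    have e : ∀ a b : ℤ, ((X.filter (fun x => α x = a)).card : ℝ) *
        ((Y.filter (fun y => β y = b)).card : ℝ) *
        (K * (η * (ent (nsw Y β δ' b) + ent (nsw X α δ a) +
          ent (nsw Y β δ' b) * ent (nsw X α δ a)))) =
        K * η * (((X.filter (fun x => α x = a)).card : ℝ) *
            (((Y.filter (fun y => β y = b)).card : ℝ) * ent (nsw Y β δ' b)) +
          (((X.filter (fun x => α x = a)).card : ℝ) * ent (nsw X α δ a)) *
            ((Y.filter (fun y => β y = b)).card : ℝ) +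
          (((X.filter (fun x => α x = a)).card : ℝ) * ent (nsw X α δ a)) *
            (((Y.filter (fun y => β y = b)).card : ℝ) * ent (nsw Y β δ' b))) := by
      intro a b
      ring
    simp only [e]
    simp only [← Finset.mul_sum, Finset.sum_add_distrib]
    rw [← Finset.sum_mul, ← Finset.sum_mul, ← Finset.sum_mul, hcX, hcY, hgX, hgY]
    ring
  rw [← hfin]
  simp only [hsum]
  rw [Finset.sum_comm]
  refine Finset.sum_le_sum fun a ha => ?_
  rw [Finset.sum_comm]
  refine Finset.sum_le_sum fun b hb => ?_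
  rw [← Finset.mul_sum]
  exact mul_le_mul_of_nonneg_left (hc2 a b ha hb) (by positivity)

end Pool.Agent.Helper80.DC
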