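import Pool.Agent.Helper80.DC.Defs
import Pool.Agent.Helper80.DC.NodeSum

set_option autoImplicit false

/-!
# DC-5a Digit: digits and residue classes

`dig p j x` is the `j`-th `p`-adic digit of `x`. If `p ∤ m` then `x` mod `m p^(j+1)` is determined
by `x` mod `m p^j` and `dig p j x`, and vice versa.
Proof. `x = p^j (x / p^j) + x % p^j`. If `x ≡ x'` mod `m p^j` then `x % p^j = x' % p^j`, so
`x - x' = p^j (x / p^j - x' / p^j)`; `p^(j+1) ∣ x - x'` iff the digits agree; `m ∣ x - x'` and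
`m`, `p^(j+1)` are coprime.
-/

namespace Pool.Agent.Helper80.DC

open Finset

/-- `j`-th `p`-adic digit of `x`, as an element of `ZMod p` -/
def dig (p j : ℕ) (x : ℤ) : ZMod p := ((x / (p ^ j : ℕ) : ℤ) : ZMod p)

private lemma emod_eq_iff (n x y : ℤ) : x % n = y % n ↔ n ∣ x - y := by
  rw [Int.emod_eq_emod_iff_emod_sub_eq_zero, Int.dvd_iff_emod_eq_zero]

private lemma sub_eq_of_dvd (P x y : ℤ) (h : P ∣ x - y) : x - y = P * (x / P - y / P) := by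
  have h1 := Int.mul_ediv_add_emod x P
  have h2 := Int.mul_ediv_add_emod y P
  have h3 : x % P = y % P := (emod_eq_iff P x y).2 h
  rw [mul_sub]
  linarith

private lemma dig_eq_iff (p j : ℕ) (x y : ℤ) :
    dig p j x = dig p j y ↔ (p : ℤ) ∣ x / ((p ^ j : ℕ) : ℤ) - y / ((p ^ j : ℕ) : ℤ) := by
  unfold dig
  rw [ZMod.intCast_eq_intCast_iff_dvd_sub, dvd_sub_comm]

/-- [DC-5a-1] -/
theorem dig_iff (p j m : ℕ) (hp : p.Prime) (hpm : ¬ p ∣ m) (hm : 0 < m) (x x' : ℤ) :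
    (x % ((m * p ^ j : ℕ) : ℤ) = x' % ((m * p ^ j : ℕ) : ℤ) ∧ dig p j x = dig p j x') ↔
      x % ((m * p ^ (j + 1) : ℕ) : ℤ) = x' % ((m * p ^ (j + 1) : ℕ) : ℤ) := by
  have hP : ((p ^ j : ℕ) : ℤ) ≠ 0 := by
    have := hp.pos
    positivity
  rw [emod_eq_iff, emod_eq_iff, dig_eq_iff]
  have hco : IsCoprime ((m : ℕ) : ℤ) (((p ^ (j + 1) : ℕ)) : ℤ) := by
    rw [Nat.isCoprime_iff_coprime]
    exact Nat.Coprime.pow_right _ ((Nat.Prime.coprime_iff_not_dvd hp).2 hpm).symm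
  constructor
  · rintro ⟨h1, h2⟩
    have hPd : ((p ^ j : ℕ) : ℤ) ∣ x - x' :=
      (by push_cast; exact dvd_mul_left _ _ : ((p ^ j : ℕ) : ℤ) ∣ ((m * p ^ j : ℕ) : ℤ)).trans h1
    have hmd : ((m : ℕ) : ℤ) ∣ x - x' :=
      (by push_cast; exact dvd_mul_right _ _ : ((m : ℕ) : ℤ) ∣ ((m * p ^ j : ℕ) : ℤ)).trans h1
    have hpp : ((p ^ (j + 1) : ℕ) : ℤ) ∣ x - x' := by
      rw [sub_eq_of_dvd _ x x' hPd]
      obtain ⟨k, hk⟩ := h2
      refine ⟨k, ?_⟩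
      rw [hk]
      push_cast
      ring
    have := hco.mul_dvd hmd hpp
    rw [← Nat.cast_mul] at this
    exact this
  · intro h
    have hPP : ((m * p ^ j : ℕ) : ℤ) ∣ ((m * p ^ (j + 1) : ℕ) : ℤ) := by
      refine ⟨(p : ℤ), ?_⟩
      push_cast
      ring
    have h1 : ((m * p ^ j : ℕ) : ℤ) ∣ x - x' := hPP.trans h
    refine ⟨h1, ?_⟩
    have hPd : ((p ^ j : ℕ) : ℤ) ∣ x - x' :=
      (by push_cast; exact dvd_mul_left _ _ : ((p ^ j : ℕ) : ℤ) ∣ ((m * p ^ j : ℕ) : ℤ)).trans h1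
    have hpp : ((p ^ (j + 1) : ℕ) : ℤ) ∣ x - x' :=
      (by push_cast; exact dvd_mul_left _ _ :
        ((p ^ (j + 1) : ℕ) : ℤ) ∣ ((m * p ^ (j + 1) : ℕ) : ℤ)).trans h
    rw [sub_eq_of_dvd _ x x' hPd] at hpp
    have h3 : ((p ^ j : ℕ) : ℤ) * (p : ℤ) ∣
        ((p ^ j : ℕ) : ℤ) * (x / ((p ^ j : ℕ) : ℤ) - x' / ((p ^ j : ℕ) : ℤ)) := by
      convert hpp using 1
      push_cast
      ring
    exact (mul_dvd_mul_iff_left hP).1 h3

/-- [DC-5a-2] the entropy of the `j`-th digit -/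
theorem gap_dig (p j m : ℕ) (hp : p.Prime) (hpm : ¬ p ∣ m) (hm : 0 < m) (X : Finset ℤ) :
    gap X (fun x => x % ((m * p ^ j : ℕ) : ℤ)) (dig p j) =
      Phi X (m * p ^ j) - Phi X (m * p ^ (j + 1)) := by
  unfold gap Phi
  rw [← sub_div, ← Finset.sum_sub_distrib]
  congr 1
  refine Finset.sum_congr rfl fun x _ => ?_
  congr 2
  unfold cnt
  congr 1
  have : ∀ y : ℤ, ((y % ((m * p ^ j : ℕ) : ℤ), dig p j y) = (x % ((m * p ^ j : ℕ) : ℤ), dig p j x)) ↔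
      y % ((m * p ^ (j + 1) : ℕ) : ℤ) = x % ((m * p ^ (j + 1) : ℕ) : ℤ) := by
    intro y
    rw [Prod.mk.injEq]
    exact dig_iff p j m hp hpm hm y x
  refine congrArg Finset.card (Finset.filter_congr fun y _ => this y)

/-- [DC-5a-3] If `x, x1` and `y, y1` have equal residues mod `m p^(s+D)` and mod `m' p^s`, and
`x + p^D v y = x1 + p^D v y1`, then `v * dig y + dig x = v * dig y1 + dig x1`.
Proof. `x % p^(s+D) = x1 % p^(s+D)`, `y % p^s = y1 % p^s`, so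
`0 = (x - x1) + p^D v (y - y1) = p^(s+D) ((x/p^(s+D) - x1/p^(s+D)) + v (y/p^s - y1/p^s))`. -/
theorem dig_add (p s D m m' : ℕ) (hp : p.Prime) (v w x y x1 y1 : ℤ)
    (hx : x % ((m * p ^ (s + D) : ℕ) : ℤ) = x1 % ((m * p ^ (s + D) : ℕ) : ℤ))
    (hy : y % ((m' * p ^ s : ℕ) : ℤ) = y1 % ((m' * p ^ s : ℕ) : ℤ))
    (h : x + (p : ℤ) ^ D * v * y = w) (h1 : x1 + (p : ℤ) ^ D * v * y1 = w) :
    (v : ZMod p) * dig p s y + dig p (s + D) x = (v : ZMod p) * dig p s y1 + dig p (s + D) x1 := by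
  have hP : ((p ^ (s + D) : ℕ) : ℤ) ≠ 0 := by
    have := hp.pos
    positivity
  rw [emod_eq_iff] at hx hy
  have hxd : ((p ^ (s + D) : ℕ) : ℤ) ∣ x - x1 :=
    (by push_cast; exact dvd_mul_left _ _ :
      ((p ^ (s + D) : ℕ) : ℤ) ∣ ((m * p ^ (s + D) : ℕ) : ℤ)).trans hx
  have hyd : ((p ^ s : ℕ) : ℤ) ∣ y - y1 :=
    (by push_cast; exact dvd_mul_left _ _ : ((p ^ s : ℕ) : ℤ) ∣ ((m' * p ^ s : ℕ) : ℤ)).trans hy
  have ex := sub_eq_of_dvd _ x x1 hxd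
  have ey := sub_eq_of_dvd _ y y1 hyd
  have key : ((p ^ (s + D) : ℕ) : ℤ) * ((x / ((p ^ (s + D) : ℕ) : ℤ) - x1 / ((p ^ (s + D) : ℕ) : ℤ)) +
      v * (y / ((p ^ s : ℕ) : ℤ) - y1 / ((p ^ s : ℕ) : ℤ))) = 0 := by
    have e1 : ((p ^ (s + D) : ℕ) : ℤ) = (p : ℤ) ^ D * ((p ^ s : ℕ) : ℤ) := by
      push_cast
      ring
    rw [mul_add, ← ex]
    calc x - x1 + ((p ^ (s + D) : ℕ) : ℤ) * (v * (y / ((p ^ s : ℕ) : ℤ) - y1 / ((p ^ s : ℕ) : ℤ)))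
        = x - x1 + (p : ℤ) ^ D * v * (((p ^ s : ℕ) : ℤ) *
            (y / ((p ^ s : ℕ) : ℤ) - y1 / ((p ^ s : ℕ) : ℤ))) := by rw [e1]; ring
      _ = x - x1 + (p : ℤ) ^ D * v * (y - y1) := by rw [← ey]
      _ = 0 := by linear_combination h - h1
  have h0 := (mul_eq_zero.1 key).resolve_left hP
  have h2 := congrArg (fun z : ℤ => (z : ZMod p)) h0
  simp only [Int.cast_add, Int.cast_sub, Int.cast_mul, Int.cast_zero] at h2
  unfold dig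
  linear_combination h2

end Pool.Agent.Helper80.DC
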