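import Pool.Agent.Helper80.DC.Defs

set_option autoImplicit false

/-!
# DC-4 Jensen: from a cost function to a lower bound for `|X + v Y|`

Proof. `W = dil X Y v`. `∑_{x, y} exp (-c x y) = ∑_{w ∈ W} ∑_{x + v y = w} exp (-c x y) ≤ |W|` by
`Adm X Y 1 1 v c` (residue classes mod 1 are everything: `x % 1 = 0`). By convexity of `exp`
(`convexOn_exp`, `ConvexOn.map_sum_le` with the weights `1/(|X||Y|)` on `X ×ˢ Y`):
`exp (- (∑ c)/(|X||Y|)) ≤ (∑ exp (-c)) / (|X||Y|) ≤ |W| / (|X||Y|)`.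
-/

namespace Pool.Agent.Helper80.DC

open Finset

/-- [DC-4] -/
theorem jensen (X Y : Finset ℤ) (hX : X.Nonempty) (hY : Y.Nonempty) (v : ℤ) (c : ℤ → ℤ → ℝ)
    (h : Adm X Y 1 1 v c) (t : ℝ)
    (ht : ∑ x ∈ X, ∑ y ∈ Y, c x y ≤ (X.card : ℝ) * Y.card * t) :
    (X.card : ℝ) * Y.card * Real.exp (-t) ≤ ((dil X Y v).card : ℝ) := by
  have h1 : ∑ x ∈ X, ∑ y ∈ Y, Real.exp (-(c x y)) ≤ ((dil X Y v).card : ℝ) := by
    have e1 : ∑ x ∈ X, ∑ y ∈ Y, Real.exp (-(c x y))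
        = ∑ w ∈ dil X Y v, ∑ x ∈ X, ∑ y ∈ Y,
          (if x + v * y = w then Real.exp (-(c x y)) else 0) := by
      symm
      rw [Finset.sum_comm]
      refine Finset.sum_congr rfl fun x hx => ?_
      rw [Finset.sum_comm]
      refine Finset.sum_congr rfl fun y hy => ?_
      rw [Finset.sum_ite_eq, if_pos]
      exact Finset.mem_image₂_of_mem hx hy
    rw [e1]
    have e2 : ∀ w ∈ dil X Y v, ∑ x ∈ X, ∑ y ∈ Y,
        (if x + v * y = w then Real.exp (-(c x y)) else 0) ≤ 1 := by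
      intro w _
      have h2 := h 0 0 w
      refine le_trans (le_of_eq ?_) h2
      refine Finset.sum_congr rfl fun x _ => Finset.sum_congr rfl fun y _ => ?_
      simp
    calc ∑ w ∈ dil X Y v, ∑ x ∈ X, ∑ y ∈ Y,
          (if x + v * y = w then Real.exp (-(c x y)) else 0)
        ≤ ∑ _w ∈ dil X Y v, (1 : ℝ) := Finset.sum_le_sum e2
      _ = ((dil X Y v).card : ℝ) := by simp
  have h3 : ∑ x ∈ X, ∑ y ∈ Y, Real.exp (-t) * (t - c x y + 1)
      ≤ ∑ x ∈ X, ∑ y ∈ Y, Real.exp (-(c x y)) := by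
    refine Finset.sum_le_sum fun x _ => Finset.sum_le_sum fun y _ => ?_
    have h4 : Real.exp (-(c x y)) = Real.exp (-t) * Real.exp (t - c x y) := by
      rw [← Real.exp_add]
      congr 1
      ring
    rw [h4]
    exact mul_le_mul_of_nonneg_left (Real.add_one_le_exp _) (Real.exp_pos _).le
  have h5 : ∑ x ∈ X, ∑ y ∈ Y, Real.exp (-t) * (t - c x y + 1)
      = Real.exp (-t) * ((X.card : ℝ) * Y.card * (t + 1) - ∑ x ∈ X, ∑ y ∈ Y, c x y) := by
    have h6 : ∀ x ∈ X, ∑ y ∈ Y, Real.exp (-t) * (t - c x y + 1)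
        = Real.exp (-t) * ((Y.card : ℝ) * (t + 1)) - Real.exp (-t) * ∑ y ∈ Y, c x y := by
      intro x _
      rw [← Finset.mul_sum, ← mul_sub]
      congr 1
      rw [Finset.sum_add_distrib, Finset.sum_sub_distrib]
      simp only [Finset.sum_const, nsmul_eq_mul]
      ring
    rw [Finset.sum_congr rfl h6, Finset.sum_sub_distrib, Finset.sum_const, nsmul_eq_mul,
      ← Finset.mul_sum]
    ring
  have h7 : Real.exp (-t) * ((X.card : ℝ) * Y.card)
      ≤ Real.exp (-t) * ((X.card : ℝ) * Y.card * (t + 1) - ∑ x ∈ X, ∑ y ∈ Y, c x y) :=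
    mul_le_mul_of_nonneg_left (by linarith) (Real.exp_pos _).le
  calc (X.card : ℝ) * Y.card * Real.exp (-t) = Real.exp (-t) * ((X.card : ℝ) * Y.card) := by ring
    _ ≤ _ := h7
    _ = _ := h5.symm
    _ ≤ _ := h3
    _ ≤ _ := h1

end Pool.Agent.Helper80.DC
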