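import Pool.Agent.Helper80.DC.Defs

set_option autoImplicit false

/-!
# DC-3 PhiFacts: elementary facts on `Phi` and `Adm`

* `cnt X α x ≥ 1` for `x ∈ X`, so `log (cnt ..) ≥ 0`.
* `Phi X m = 0`, `x ∈ X`: `cnt = 1`, so the class of `x` is `{x}`.
* for large `J` the classes mod `m p^J` are singletons (`|x - x'| < m p^J` for `x, x' ∈ X`).
-/

namespace Pool.Agent.Helper80.DC

open Finset

private theorem cnt_pos {β : Type} [DecidableEq β] {X : Finset ℤ} (α : ℤ → β) {x : ℤ}
    (hx : x ∈ X) : 1 ≤ cnt X α x := by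
  unfold cnt
  exact Finset.card_pos.2 ⟨x, Finset.mem_filter.2 ⟨hx, rfl⟩⟩

private theorem log_cnt_nonneg {β : Type} [DecidableEq β] (X : Finset ℤ) (α : ℤ → β) (x : ℤ) :
    0 ≤ Real.log (cnt X α x) := Real.log_natCast_nonneg _

theorem Phi_nonneg (X : Finset ℤ) (m : ℕ) : 0 ≤ Phi X m := by
  unfold Phi
  exact div_nonneg (Finset.sum_nonneg fun x _ => log_cnt_nonneg X _ x) (Nat.cast_nonneg _)

theorem Phi_one (X : Finset ℤ) (hX : X.Nonempty) : Phi X 1 = Real.log X.card := by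
  unfold Phi
  have h : ∀ x ∈ X, Real.log (cnt X (fun y => y % ((1 : ℕ) : ℤ)) x) = Real.log X.card := by
    intro x _
    have e : cnt X (fun y => y % ((1 : ℕ) : ℤ)) x = X.card := by
      unfold cnt
      congr 1
      apply Finset.filter_true_of_mem
      intro y _
      simp
    rw [e]
  rw [Finset.sum_congr rfl h, Finset.sum_const, nsmul_eq_mul]
  have hc : (X.card : ℝ) ≠ 0 := by
    have := Finset.card_pos.2 hX
    positivity
  field_simp

theorem Phi_anti (X : Finset ℤ) {m n : ℕ} (h : m ∣ n) : Phi X n ≤ Phi X m := by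
  unfold Phi
  apply div_le_div_of_nonneg_right _ (Nat.cast_nonneg _)
  apply Finset.sum_le_sum
  intro x hx
  have h1 := cnt_pos (X := X) (fun y => y % (n : ℤ)) hx
  have h2 : cnt X (fun y => y % (n : ℤ)) x ≤ cnt X (fun y => y % (m : ℤ)) x := by
    unfold cnt
    apply Finset.card_le_card
    intro y hy
    rw [Finset.mem_filter] at hy ⊢
    refine ⟨hy.1, ?_⟩
    have hd : (m : ℤ) ∣ (n : ℤ) := Int.natCast_dvd_natCast.2 h
    have h3 := congrArg (fun z => z % (m : ℤ)) hy.2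
    simpa only [Int.emod_emod_of_dvd _ hd] using h3
  apply Real.log_le_log
  · exact_mod_cast h1
  · exact_mod_cast h2

theorem Phi_zero_inj (X : Finset ℤ) (m : ℕ) (h : Phi X m = 0) :
    ∀ x ∈ X, ∀ x' ∈ X, x % (m : ℤ) = x' % (m : ℤ) → x = x' := by
  intro x hx x' hx' he
  unfold Phi at h
  have hc : (X.card : ℝ) ≠ 0 := by
    have := Finset.card_pos.2 ⟨x, hx⟩
    positivity
  have h1 : ∑ x ∈ X, Real.log (cnt X (fun y => y % (m : ℤ)) x) = 0 := by
    rcases div_eq_zero_iff.1 h with h2 | h2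
    · exact h2
    · exact absurd h2 hc
  have h2 := (Finset.sum_eq_zero_iff_of_nonneg
    (fun x _ => log_cnt_nonneg X (fun y => y % (m : ℤ)) x)).1 h1 x hx
  by_contra hne
  have h3 : 2 ≤ cnt X (fun y => y % (m : ℤ)) x := by
    unfold cnt
    have hsub : ({x, x'} : Finset ℤ) ⊆ X.filter (fun y => y % (m : ℤ) = x % (m : ℤ)) := by
      intro y hy
      rw [Finset.mem_insert, Finset.mem_singleton] at hy
      rcases hy with rfl | rfl
      · exact Finset.mem_filter.2 ⟨hx, rfl⟩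
      · exact Finset.mem_filter.2 ⟨hx', he.symm⟩
    have := Finset.card_le_card hsub
    rwa [Finset.card_pair hne] at this
  have h4 : 0 < Real.log (cnt X (fun y => y % (m : ℤ)) x) := by
    apply Real.log_pos
    have : (2 : ℝ) ≤ (cnt X (fun y => y % (m : ℤ)) x : ℝ) := by exact_mod_cast h3
    linarith
  linarith

theorem Phi_pow_zero (X : Finset ℤ) {m p : ℕ} (hm : 0 < m) (hp : 2 ≤ p) :
    ∃ J0 : ℕ, ∀ J, J0 ≤ J → Phi X (m * p ^ J) = 0 := by
  refine ⟨∑ x ∈ X, ∑ x' ∈ X, (x - x').natAbs, fun J hJ => ?_⟩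
  unfold Phi
  rw [div_eq_zero_iff]
  left
  apply Finset.sum_eq_zero
  intro x hx
  have hone : cnt X (fun y => y % ((m * p ^ J : ℕ) : ℤ)) x = 1 := by
    unfold cnt
    rw [Finset.card_eq_one]
    refine ⟨x, ?_⟩
    ext y
    rw [Finset.mem_filter, Finset.mem_singleton]
    constructor
    · rintro ⟨hy, he⟩
      have h1 : (y - x).natAbs ≤ J := by
        refine le_trans ?_ hJ
        calc (y - x).natAbs ≤ ∑ x' ∈ X, (y - x').natAbs :=
              Finset.single_le_sum (f := fun x' => (y - x').natAbs)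
                (fun _ _ => Nat.zero_le _) hx
          _ ≤ ∑ x ∈ X, ∑ x' ∈ X, (x - x').natAbs :=
              Finset.single_le_sum (f := fun x => ∑ x' ∈ X, (x - x').natAbs)
                (fun _ _ => Nat.zero_le _) hy
      have h2 : J < m * p ^ J := by
        calc J < p ^ J := Nat.lt_pow_self (by omega)
          _ ≤ m * p ^ J := Nat.le_mul_of_pos_left _ hm
      have h3 : ((m * p ^ J : ℕ) : ℤ) ∣ y - x :=
        Int.dvd_of_emod_eq_zero ((Int.emod_eq_emod_iff_emod_sub_eq_zero).1 he)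
      have h4 : |y - x| < ((m * p ^ J : ℕ) : ℤ) := by
        rw [Int.abs_eq_natAbs]
        exact_mod_cast lt_of_le_of_lt h1 h2
      have h5 := Int.eq_zero_of_abs_lt_dvd h3 h4
      omega
    · rintro rfl
      exact ⟨hx, rfl⟩
  rw [hone]
  simp

/-- all classes are singletons: the zero cost is admissible -/
theorem Adm_zero (X Y : Finset ℤ) (m m' : ℕ) (v : ℤ) (h : Phi X m = 0) (h' : Phi Y m' = 0) :
    Adm X Y m m' v (fun _ _ => 0) := by
  intro a b w
  have hX := Phi_zero_inj X m h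
  have hY := Phi_zero_inj Y m' h'
  rw [← Finset.sum_product' X Y (fun x y =>
    (if x % (m : ℤ) = a ∧ y % (m' : ℤ) = b ∧ x + v * y = w then Real.exp (-(0 : ℝ)) else 0))]
  rw [← Finset.sum_filter]
  simp only [neg_zero, Real.exp_zero, Finset.sum_const, nsmul_eq_mul, mul_one]
  have hle : ((X ×ˢ Y).filter (fun q : ℤ × ℤ =>
      q.1 % (m : ℤ) = a ∧ q.2 % (m' : ℤ) = b ∧ q.1 + v * q.2 = w)).card ≤ 1 := by
    rw [Finset.card_le_one]
    rintro ⟨x, y⟩ hq ⟨x', y'⟩ hq'
    rw [Finset.mem_filter, Finset.mem_product] at hq hq'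
    simp only at hq hq'
    have e1 := hX x hq.1.1 x' hq'.1.1 (hq.2.1.trans hq'.2.1.symm)
    have e2 := hY y hq.1.2 y' hq'.1.2 (hq.2.2.1.trans hq'.2.2.1.symm)
    rw [e1, e2]
  exact_mod_cast hle

/-- the free digit: if `p ∣ v` then `w = x + v y` determines `x` mod `p`, hence `x` mod `m p` -/
theorem Adm_free (X Y : Finset ℤ) (m m' p : ℕ) (v : ℤ) (c : ℤ → ℤ → ℝ) (hp : p.Prime)
    (hpm : ¬ p ∣ m) (hv : (p : ℤ) ∣ v) (h : Adm X Y (m * p) m' v c) : Adm X Y m m' v c := by
  intro a b w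
  have hcop : IsCoprime (m : ℤ) (p : ℤ) := by
    rw [Nat.isCoprime_iff_coprime]
    exact (hp.coprime_iff_not_dvd.2 hpm).symm
  by_cases hex : ∃ x ∈ X, ∃ y ∈ Y, x % (m : ℤ) = a ∧ y % (m' : ℤ) = b ∧ x + v * y = w
  · obtain ⟨x₀, _, y₀, _, ha₀, _, hw₀⟩ := hex
    refine le_trans ?_ (h (x₀ % ((m * p : ℕ) : ℤ)) b w)
    apply Finset.sum_le_sum
    intro x _
    apply Finset.sum_le_sum
    intro y _
    split_ifs with h1 h2 h2
    · exact le_rfl
    · exfalso
      apply h2
      refine ⟨?_, h1.2.1, h1.2.2⟩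
      rw [Int.emod_eq_emod_iff_emod_sub_eq_zero]
      apply Int.emod_eq_zero_of_dvd
      push_cast
      apply hcop.mul_dvd
      · exact Int.dvd_of_emod_eq_zero
          ((Int.emod_eq_emod_iff_emod_sub_eq_zero).1 (h1.1.trans ha₀.symm))
      · have e : x - x₀ = v * (y₀ - y) := by linear_combination h1.2.2 - hw₀
        rw [e]
        exact Dvd.dvd.mul_right hv _
    · exact (Real.exp_pos _).le
    · exact le_rfl
  · push Not at hex
    refine le_trans (le_of_eq ?_) zero_le_one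
    apply Finset.sum_eq_zero
    intro x hx
    apply Finset.sum_eq_zero
    intro y hy
    rw [if_neg]
    rintro ⟨h1, h2, h3⟩
    exact hex x hx y hy h1 h2 h3

end Pool.Agent.Helper80.DC
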