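import Pool.Agent.Helper80.DC.NodeLemma
import Pool.Agent.Helper80.DC.Chain
import Pool.Agent.Helper80.DC.Jensen
import Pool.Agent.Helper80.DC.PhiFacts

set_option autoImplicit false

/-!
# DC-8 Dilates: Theorem 1

Proof. `B0 = 2/δ`, `η = ε/(1+B0)`, `K` from `node_exists η`, `n0 = 2 K`. Given `X, Y, P`: let
`q_1 < .. < q_K` be the `K` smallest elements of `P` (e.g. `P.orderEmbOfFin rfl`), `P'` the rest,
`|P'| ≥ |P|/2 ≥ (δ/2) log (|X||Y|)`, so `log |X| + log |Y| ≤ B0 |P'|`. `chain` with `m = m' = 1`,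
`v = 1` (`Phi_one`) gives `G ⊆ P'` and costs with total `≤ K ε |X||Y| log (|X||Y|)`; so for some `i`
the total of `c i` is `≤ ε |X||Y| log (|X||Y|)`; `jensen` with `t = ε log (|X||Y|)` gives
`|X||Y| exp (-ε log (|X||Y|)) = (|X||Y|)^(1-ε) ≤ |X + v_i Y|`, `v_i = q_i ∏ G = ∏ (insert q_i G)`.
-/

namespace Pool.Agent.Helper80.DC

open Finset

/-- [DC-8] Theorem 1 (dilates) -/
theorem dilates (ε δ : ℝ) (hε : 0 < ε) (hδ : 0 < δ) : ∃ n0 : ℕ, ∀ (X Y : Finset ℤ) (P : Finset ℕ),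
    X.Nonempty → Y.Nonempty → (∀ p ∈ P, p.Prime) → n0 ≤ P.card →
    δ * Real.log ((X.card : ℝ) * Y.card) ≤ P.card →
    ∃ G ⊆ P, ((X.card : ℝ) * Y.card) ^ (1 - ε) ≤ ((dil X Y (∏ p ∈ G, (p : ℤ))).card : ℝ) := by
  classical
  have hB0 : 0 < 2 / δ := by positivity
  have hη : 0 < ε / (1 + 2 / δ) := by positivity
  obtain ⟨K, hK, hnode⟩ := node_exists (ε / (1 + 2 / δ)) hη
  refine ⟨2 * K, fun X Y P hX hY hP hcard hlog => ?_⟩
  have hKP : K ≤ P.card := by omega
  obtain ⟨q, hq, hqP, hqlt⟩ : ∃ q : Fin K → ℕ, Function.Injective q ∧ (∀ i, q i ∈ P) ∧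
      ∀ p ∈ P, (∀ i, q i ≠ p) → ∀ i, q i < p := by
    refine ⟨fun i => P.orderEmbOfFin rfl (Fin.castLE hKP i), ?_, ?_, ?_⟩
    · intro i j hij
      have h1 := (P.orderEmbOfFin rfl).injective hij
      exact Fin.castLE_injective hKP h1
    · intro i
      exact P.orderEmbOfFin_mem rfl _
    · intro p hp hne i
      have hr : p ∈ Set.range (P.orderEmbOfFin (rfl : P.card = P.card)) := by
        rw [Finset.range_orderEmbOfFin]
        exact hp
      obtain ⟨j, rfl⟩ := hr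
      have hj : K ≤ (j : ℕ) := by
        by_contra hcon
        rw [not_le] at hcon
        exact hne ⟨j, hcon⟩ rfl
      refine (P.orderEmbOfFin rfl).strictMono ?_
      rw [Fin.lt_def]
      simp only [Fin.val_castLE]
      exact lt_of_lt_of_le i.2 hj
  have hX0 : (0 : ℝ) < X.card := by exact_mod_cast hX.card_pos
  have hY0 : (0 : ℝ) < Y.card := by exact_mod_cast hY.card_pos
  have hXY : (0 : ℝ) < (X.card : ℝ) * Y.card := mul_pos hX0 hY0
  set P' := P \ Finset.univ.image q with hP'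
  have hP'card : P.card - K ≤ P'.card := by
    have h1 : P.card - (Finset.univ.image q).card ≤ P'.card :=
      Finset.le_card_sdiff (Finset.univ.image q) P
    have h2 : (Finset.univ.image q).card ≤ K := by
      refine (Finset.card_image_le).trans ?_
      simp
    omega
  have hmem : ∀ p ∈ P', p ∈ P ∧ ∀ i, q i ≠ p := by
    intro p hp
    rw [hP', Finset.mem_sdiff] at hp
    refine ⟨hp.1, fun i hi => hp.2 ?_⟩
    rw [Finset.mem_image]
    exact ⟨i, Finset.mem_univ i, hi⟩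
  have hlogXY : Real.log ((X.card : ℝ) * Y.card) = Phi X 1 + Phi Y 1 := by
    rw [Phi_one X hX, Phi_one Y hY, Real.log_mul hX0.ne' hY0.ne']
  have hPhi : Phi X 1 + Phi Y 1 ≤ 2 / δ * P'.card := by
    rw [← hlogXY]
    have h1 : (P.card : ℝ) ≤ 2 * P'.card := by
      have : P.card ≤ 2 * P'.card := by omega
      exact_mod_cast this
    rw [div_mul_eq_mul_div, le_div_iff₀ hδ]
    calc Real.log ((X.card : ℝ) * Y.card) * δ = δ * Real.log ((X.card : ℝ) * Y.card) := by ring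
      _ ≤ P.card := hlog
      _ ≤ 2 * P'.card := h1
  obtain ⟨G, hG, hGv⟩ := chain hη.le hnode (2 / δ) hB0.le q hq
    (fun i => (hP _ (hqP i)).pos) X Y hX hY P' (fun p hp => hP p (hmem p hp).1)
    (fun p hp i => hqlt p (hmem p hp).1 (hmem p hp).2 i) 1 1 one_pos one_pos
    (fun p hp => by
      have := (hP p (hmem p hp).1).one_lt
      rw [Nat.dvd_one]
      omega) hPhi
  obtain ⟨c, -, hAdm, htot⟩ := hGv 1 (fun p hp h => by
    have h1 : IsUnit ((p : ℕ) : ℤ) := isUnit_of_dvd_one h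
    rw [Int.ofNat_isUnit, Nat.isUnit_iff] at h1
    have := (hP p (hmem p hp).1).one_lt
    omega)
  have : Nonempty (Fin K) := ⟨⟨0, hK⟩⟩
  obtain ⟨i, -, hi⟩ : ∃ i ∈ (Finset.univ : Finset (Fin K)), ∑ x ∈ X, ∑ y ∈ Y, c i x y ≤
      (X.card : ℝ) * Y.card * (ε * Real.log ((X.card : ℝ) * Y.card)) := by
    refine Finset.exists_le_of_sum_le Finset.univ_nonempty ?_
    rw [Finset.sum_const, Finset.card_univ, Fintype.card_fin, nsmul_eq_mul, hlogXY]
    refine htot.trans (le_of_eq ?_)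
    have h2 : (1 + 2 / δ) ≠ 0 := by positivity
    field_simp
  refine ⟨insert (q i) G, ?_, ?_⟩
  · intro p hp
    rcases Finset.mem_insert.1 hp with h | h
    · rw [h]; exact hqP i
    · exact (hmem p (hG h)).1
  · have hqG : q i ∉ G := fun h => (hmem _ (hG h)).2 i rfl
    have h3 := jensen X Y hX hY _ (c i) (hAdm i) _ hi
    rw [Finset.prod_insert hqG]
    rw [mul_one] at h3
    refine le_trans (le_of_eq ?_) h3
    rw [Real.rpow_def_of_pos hXY]
    conv_rhs => rw [← Real.exp_log hXY]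
    rw [← Real.exp_add, Real.log_exp]
    congr 1
    ring

end Pool.Agent.Helper80.DC
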