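import Pool.Agent.Helper80.DC.Dilates

set_option autoImplicit false

/-!
# DC-9 Kfold: Theorem 2

Proof. Induction on `k`. `k = 0`: the image is `{0}`, `|B|^(-ε) ≤ 1`. Step: `n0` = maximum of the
constants of the induction hypothesis for `(k, ε/2, δ)` and of `dilates` for
`(ε' = ε/(2(k+1)), δ/(k+1))`. `X` = the image for `k`, `|X| ≤ |B|^k`, `|X| ≥ |B|^(k-ε/2)`,
`(δ/(k+1)) log (|X||B|) ≤ δ log |B| ≤ |P|`, so there is `G ⊆ P` with
`|X + (∏ G) B| ≥ (|X||B|)^(1-ε') ≥ |B|^((k+1-ε/2)(1-ε')) ≥ |B|^(k+1-ε)` (if `1 - ε' < 0`, i.e. `ε > 2(k+1)`,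
the claim is trivial: `|B|^(k+1-ε) ≤ 1`). The image for `k + 1` (last coordinate `G`, `Fin.snoc`)
contains `dil X B (∏ G)`.
-/

namespace Pool.Agent.Helper80.DC

open Finset

/-- [DC-9] Theorem 2 (k-fold sums) -/
theorem kfold (k : ℕ) : ∀ (ε δ : ℝ), 0 < ε → 0 < δ → ∃ n0 : ℕ, ∀ (B : Finset ℤ) (P : Finset ℕ),
    B.Nonempty → (∀ p ∈ P, p.Prime) → n0 ≤ P.card → δ * Real.log B.card ≤ P.card →
    ∃ G : Fin k → Finset ℕ, (∀ i, G i ⊆ P) ∧
      (B.card : ℝ) ^ ((k : ℝ) - ε) ≤
        (((Fintype.piFinset fun _ : Fin k => B).image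
          (fun f => ∑ i, (∏ p ∈ G i, (p : ℤ)) * f i)).card : ℝ) := by
  induction k with
  | zero =>
    intro ε δ hε hδ
    refine ⟨0, fun B P hB hP _ _ => ⟨fun _ => ∅, fun i => Finset.empty_subset _, ?_⟩⟩
    have hB1 : (1 : ℝ) ≤ B.card := by exact_mod_cast hB.card_pos
    have h1 : (B.card : ℝ) ^ (((0 : ℕ) : ℝ) - ε) ≤ 1 := by
      apply Real.rpow_le_one_of_one_le_of_nonpos hB1
      push_cast
      linarith
    refine h1.trans ?_
    have h2 : ((Fintype.piFinset fun _ : Fin 0 => B).image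
        (fun f => ∑ i, (∏ p ∈ (fun _ : Fin 0 => (∅ : Finset ℕ)) i, (p : ℤ)) * f i)).Nonempty := by
      apply Finset.Nonempty.image
      rw [Fintype.piFinset_nonempty]
      intro i
      exact hB
    exact_mod_cast h2.card_pos
  | succ k ih =>
    intro ε δ hε hδ
    have hk1 : (0 : ℝ) < (k : ℝ) + 1 := by positivity
    set ε' : ℝ := min (ε / (2 * ((k : ℝ) + 1))) 1 with hε'def
    have hε'pos : 0 < ε' := lt_min (by positivity) one_pos
    have hε'1 : ε' ≤ 1 := min_le_right _ _
    have hε'2 : ε' * ((k : ℝ) + 1) ≤ ε / 2 := by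
      have h1 : ε' ≤ ε / (2 * ((k : ℝ) + 1)) := min_le_left _ _
      rw [le_div_iff₀ (by positivity)] at h1
      linarith
    obtain ⟨n1, h1⟩ := ih (ε / 2) δ (by positivity) hδ
    obtain ⟨n2, h2⟩ := dilates ε' (δ / ((k : ℝ) + 1)) hε'pos (by positivity)
    refine ⟨max n1 n2, fun B P hB hP hn hδP => ?_⟩
    obtain ⟨G, hGP, hG⟩ := h1 B P hB hP ((le_max_left _ _).trans hn) hδP
    set X : Finset ℤ := (Fintype.piFinset fun _ : Fin k => B).image
      (fun f => ∑ i, (∏ p ∈ G i, (p : ℤ)) * f i) with hX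
    have hB1 : (1 : ℝ) ≤ B.card := by exact_mod_cast hB.card_pos
    have hB0 : (0 : ℝ) < B.card := by linarith
    have hXne : X.Nonempty := by
      apply Finset.Nonempty.image
      rw [Fintype.piFinset_nonempty]
      intro i
      exact hB
    have hX1 : (1 : ℝ) ≤ X.card := by exact_mod_cast hXne.card_pos
    have hXle : (X.card : ℝ) ≤ (B.card : ℝ) ^ k := by
      have h3 : X.card ≤ B.card ^ k := by
        refine Finset.card_image_le.trans ?_
        rw [Fintype.card_piFinset]
        simp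
      exact_mod_cast h3
    have hlogB : 0 ≤ Real.log B.card := Real.log_nonneg hB1
    have hlogX : Real.log X.card ≤ k * Real.log B.card := by
      have h3 := Real.log_le_log (by linarith) hXle
      rwa [Real.log_pow] at h3
    have hlog : δ / ((k : ℝ) + 1) * Real.log ((X.card : ℝ) * B.card) ≤ P.card := by
      refine le_trans ?_ hδP
      rw [Real.log_mul (by linarith) (by linarith), div_mul_eq_mul_div, div_le_iff₀ hk1]
      have h3 : Real.log X.card + Real.log B.card ≤ Real.log B.card * ((k : ℝ) + 1) := by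
        linarith
      calc δ * (Real.log X.card + Real.log B.card) ≤ δ * (Real.log B.card * ((k : ℝ) + 1)) :=
            mul_le_mul_of_nonneg_left h3 hδ.le
        _ = δ * Real.log B.card * ((k : ℝ) + 1) := by ring
    obtain ⟨G', hG'P, hG'⟩ := h2 X B P hXne hB hP ((le_max_right _ _).trans hn) hlog
    refine ⟨Fin.snoc (α := fun _ => Finset ℕ) G G', ?_, ?_⟩
    · intro i
      refine Fin.lastCases ?_ (fun i => ?_) i
      · rw [Fin.snoc_last]
        exact hG'P
      · rw [Fin.snoc_castSucc]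
        exact hGP i
    · -- the numbers
      have hXB : (B.card : ℝ) ^ ((k : ℝ) + 1 - ε / 2) ≤ (X.card : ℝ) * B.card := by
        have e : (B.card : ℝ) ^ ((k : ℝ) + 1 - ε / 2) =
            (B.card : ℝ) ^ ((k : ℝ) - ε / 2) * B.card := by
          rw [← Real.rpow_add_one hB0.ne']
          congr 1
          ring
        rw [e]
        exact mul_le_mul_of_nonneg_right hG hB0.le
      have hexp : (B.card : ℝ) ^ (((k + 1 : ℕ) : ℝ) - ε) ≤
          ((X.card : ℝ) * B.card) ^ (1 - ε') := by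
        calc (B.card : ℝ) ^ (((k + 1 : ℕ) : ℝ) - ε)
            ≤ (B.card : ℝ) ^ (((k : ℝ) + 1 - ε / 2) * (1 - ε')) := by
              apply Real.rpow_le_rpow_of_exponent_le hB1
              push_cast
              nlinarith [mul_pos hε'pos hε]
          _ = ((B.card : ℝ) ^ ((k : ℝ) + 1 - ε / 2)) ^ (1 - ε') := Real.rpow_mul hB0.le _ _
          _ ≤ ((X.card : ℝ) * B.card) ^ (1 - ε') :=
              Real.rpow_le_rpow (Real.rpow_nonneg hB0.le _) hXB (by linarith)
      refine hexp.trans (hG'.trans ?_)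
      have hsub : dil X B (∏ p ∈ G', (p : ℤ)) ⊆
          (Fintype.piFinset fun _ : Fin (k + 1) => B).image
            (fun f => ∑ i, (∏ p ∈ (Fin.snoc (α := fun _ => Finset ℕ) G G' :
              Fin (k + 1) → Finset ℕ) i, (p : ℤ)) * f i) := by
        intro w hw
        rw [dil, Finset.mem_image₂] at hw
        obtain ⟨x, hx, y, hy, rfl⟩ := hw
        rw [hX, Finset.mem_image] at hx
        obtain ⟨f, hf, rfl⟩ := hx
        rw [Finset.mem_image]
        refine ⟨Fin.snoc (α := fun _ => ℤ) f y, ?_, ?_⟩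
        · rw [Fintype.mem_piFinset] at hf ⊢
          intro i
          refine Fin.lastCases ?_ (fun i => ?_) i
          · rw [Fin.snoc_last]
            exact hy
          · rw [Fin.snoc_castSucc]
            exact hf i
        · rw [Fin.sum_univ_castSucc]
          simp only [Fin.snoc_castSucc, Fin.snoc_last]
      exact_mod_cast Finset.card_le_card hsub

end Pool.Agent.Helper80.DC
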