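import Pool.Agent.Helper80.DC.NodeStep

set_option autoImplicit false

/-!
# DC-6 Levels: `n` consecutive digits

Write `eX j = Phi X (m p^j) - Phi X (m p^(j+1)) ≥ 0`, `eY s = Phi Y (m' p^s) - Phi Y (m' p^(s+1))`.
If for every `s < n` one of `eX (s + D)`, `eY s` is `≤ B0`, then each of the `n` steps of
`nodeStep` costs at most `K η |X||Y| (eX (s+D) + eY s + eX (s+D) eY s)
≤ K η |X||Y| (1 + B0) (eX (s+D) + eY s)`, and these telescope. Induction on `n` (peel off the level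
`s = n - 1` first, i.e. the step from `(n, n)` to `(n - 1, n - 1)`, then use the induction
hypothesis).
-/

namespace Pool.Agent.Helper80.DC

open Finset

/-- [DC-6] -/
theorem levels {η : ℝ} (hη : 0 ≤ η) {K : ℕ} (h : NodeProp η K) (B0 : ℝ) (hB0 : 0 ≤ B0)
    (p : ℕ) [Fact p.Prime] (X Y : Finset ℤ)
    (hX : X.Nonempty) (hY : Y.Nonempty) (m m' : ℕ) (hm : 0 < m) (hm' : 0 < m')
    (hpm : ¬ p ∣ m) (hpm' : ¬ p ∣ m') (D : ℕ) (v1 : Fin K → ℤ)
    (hinj : Function.Injective (fun i => (v1 i : ZMod p))) (h0 : ∀ i, (v1 i : ZMod p) ≠ 0)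
    (n : ℕ)
    (hsmall : ∀ s < n, Phi X (m * p ^ (s + D)) - Phi X (m * p ^ (s + D + 1)) ≤ B0 ∨
      Phi Y (m' * p ^ s) - Phi Y (m' * p ^ (s + 1)) ≤ B0)
    (c : Fin K → ℤ → ℤ → ℝ) (hc : ∀ i x y, 0 ≤ c i x y)
    (hadm : ∀ i, Adm X Y (m * p ^ (n + D)) (m' * p ^ n) ((p : ℤ) ^ D * v1 i) (c i)) :
    ∃ c' : Fin K → ℤ → ℤ → ℝ, (∀ i x y, 0 ≤ c' i x y) ∧
      (∀ i, Adm X Y (m * p ^ D) m' ((p : ℤ) ^ D * v1 i) (c' i)) ∧
      ∑ i, ∑ x ∈ X, ∑ y ∈ Y, c' i x y ≤ ∑ i, ∑ x ∈ X, ∑ y ∈ Y, c i x y +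
        K * (η * (1 + B0) * (X.card * Y.card *
          ((Phi X (m * p ^ D) - Phi X (m * p ^ (n + D))) +
           (Phi Y m' - Phi Y (m' * p ^ n))))) := by
  induction n generalizing c with
  | zero =>
    refine ⟨c, hc, fun i => ?_, ?_⟩
    · have h1 := hadm i
      rw [Nat.zero_add, pow_zero, mul_one] at h1
      exact h1
    · rw [Nat.zero_add, pow_zero, mul_one, sub_self, sub_self, add_zero, mul_zero, mul_zero,
        mul_zero, add_zero]
  | succ n ih =>
    have e1 : n + 1 + D = n + D + 1 := by omega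
    rw [e1] at hadm
    obtain ⟨c1, hc1, hadm1, hsum1⟩ :=
      nodeStep h p X Y hX hY m m' hm hm' hpm hpm' n D v1 hinj h0 c hc hadm
    obtain ⟨c2, hc2, hadm2, hsum2⟩ :=
      ih (fun s hs => hsmall s (Nat.lt_succ_of_lt hs)) c1 hc1 hadm1
    refine ⟨c2, hc2, hadm2, hsum2.trans ?_⟩
    rw [e1]
    have hX0 : (0 : ℝ) ≤ X.card := Nat.cast_nonneg _
    have hY0 : (0 : ℝ) ≤ Y.card := Nat.cast_nonneg _
    have hK0 : (0 : ℝ) ≤ K := Nat.cast_nonneg _
    have heX : 0 ≤ Phi X (m * p ^ (n + D)) - Phi X (m * p ^ (n + D + 1)) :=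
      sub_nonneg.mpr (Phi_anti X (mul_dvd_mul_left m (pow_dvd_pow p (Nat.le_succ _))))
    have heY : 0 ≤ Phi Y (m' * p ^ n) - Phi Y (m' * p ^ (n + 1)) :=
      sub_nonneg.mpr (Phi_anti Y (mul_dvd_mul_left m' (pow_dvd_pow p (Nat.le_succ _))))
    have hs := hsmall n (Nat.lt_succ_self n)
    set a := Phi X (m * p ^ (n + D)) - Phi X (m * p ^ (n + D + 1)) with ha
    set b := Phi Y (m' * p ^ n) - Phi Y (m' * p ^ (n + 1)) with hb
    have hprod : a * b ≤ B0 * (a + b) := by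
      rcases hs with hs | hs
      · have h1 : a * b ≤ B0 * b := mul_le_mul_of_nonneg_right hs heY
        have h2 : B0 * b ≤ B0 * (a + b) := mul_le_mul_of_nonneg_left (by linarith) hB0
        exact h1.trans h2
      · have h1 : a * b ≤ a * B0 := mul_le_mul_of_nonneg_left hs heX
        have h2 : B0 * a ≤ B0 * (a + b) := mul_le_mul_of_nonneg_left (by linarith) hB0
        rw [mul_comm a B0] at h1
        exact h1.trans h2
    have hstep : K * (η * (X.card * Y.card * (a + b + a * b))) ≤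
        (K : ℝ) * (η * (1 + B0) * (X.card * Y.card * (a + b))) := by
      have h3 : a + b + a * b ≤ (1 + B0) * (a + b) := by
        rw [add_mul, one_mul]
        linarith
      have h4 : (X.card : ℝ) * Y.card * (a + b + a * b) ≤
          X.card * Y.card * ((1 + B0) * (a + b)) :=
        mul_le_mul_of_nonneg_left h3 (mul_nonneg hX0 hY0)
      have h5 : (K : ℝ) * (η * (X.card * Y.card * (a + b + a * b))) ≤
          K * (η * (X.card * Y.card * ((1 + B0) * (a + b)))) :=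
        mul_le_mul_of_nonneg_left (mul_le_mul_of_nonneg_left h4 hη) hK0
      refine h5.trans (le_of_eq ?_)
      ring
    have htel : (K : ℝ) * (η * (1 + B0) * (X.card * Y.card * (a + b))) +
        K * (η * (1 + B0) * (X.card * Y.card *
          ((Phi X (m * p ^ D) - Phi X (m * p ^ (n + D))) + (Phi Y m' - Phi Y (m' * p ^ n))))) =
        K * (η * (1 + B0) * (X.card * Y.card *
          ((Phi X (m * p ^ D) - Phi X (m * p ^ (n + D + 1))) +
            (Phi Y m' - Phi Y (m' * p ^ (n + 1)))))) := by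
      rw [ha, hb]
      ring
    linarith

end Pool.Agent.Helper80.DC
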