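import Pool.Agent.Helper80.DC.Defs

set_option autoImplicit false

/-!
# DC-1b Mass: elementary facts on heavy and light atoms

All of them follow from `Real.negMulLog x = - x * Real.log x`, `0 ≤ x ≤ 1 → 0 ≤ negMulLog x`,
`1 - x ≤ - Real.log x` for `0 < x` (`Real.log_le_sub_one_of_pos`), and for `0 < x < κ`:
`log (1/κ) < - log x`.
-/

namespace Pool.Agent.Helper80.DC

open Finset

private theorem le_one {α : Type} [Fintype α] [DecidableEq α] {f : α → ℝ} (hf : ∀ a, 0 ≤ f a)
    (hf1 : ∑ a, f a = 1) (a : α) : f a ≤ 1 := by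
  rw [← hf1]
  exact Finset.single_le_sum (fun b _ => hf b) (mem_univ a)

private theorem nml_nonneg {α : Type} [Fintype α] [DecidableEq α] {f : α → ℝ}
    (hf : ∀ a, 0 ≤ f a) (hf1 : ∑ a, f a = 1) (a : α) : 0 ≤ Real.negMulLog (f a) :=
  Real.negMulLog_nonneg (hf a) (le_one hf hf1 a)

private theorem mul_one_sub_le {x : ℝ} (hx : 0 ≤ x) : x * (1 - x) ≤ Real.negMulLog x := by
  rcases hx.lt_or_eq with h | h
  · have h1 := Real.log_le_sub_one_of_pos h
    unfold Real.negMulLog
    nlinarith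
  · rw [← h]; simp

/-- [DC-1b-1] the mass of the light atoms -/
theorem mass_light {α : Type} [Fintype α] [DecidableEq α] (f : α → ℝ) (hf : ∀ a, 0 ≤ f a)
    (hf1 : ∑ a, f a = 1) (κ : ℝ) (hκ : 0 < κ) (hκ1 : κ < 1) :
    (∑ a ∈ univ.filter (fun a => f a < κ), f a) * Real.log (1 / κ) ≤ ent f := by
  rw [Finset.sum_mul]
  calc ∑ a ∈ univ.filter (fun a => f a < κ), f a * Real.log (1 / κ)
      ≤ ∑ a ∈ univ.filter (fun a => f a < κ), Real.negMulLog (f a) := by
        apply Finset.sum_le_sum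
        intro a ha
        have hlt : f a < κ := (Finset.mem_filter.1 ha).2
        rcases (hf a).lt_or_eq with h | h
        · have h1 : Real.log (f a) ≤ Real.log κ := Real.log_le_log h hlt.le
          have h2 : Real.log (1 / κ) = -Real.log κ := by
            rw [one_div, Real.log_inv]
          rw [h2]
          unfold Real.negMulLog
          nlinarith
        · rw [← h]; simp
    _ ≤ ∑ a, Real.negMulLog (f a) := by
        apply Finset.sum_le_sum_of_subset_of_nonneg (Finset.filter_subset _ _)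
        intro a _ _
        exact nml_nonneg hf hf1 a

/-- [DC-1b-2] the number of heavy atoms -/
theorem card_heavy {α : Type} [Fintype α] [DecidableEq α] (f : α → ℝ) (hf : ∀ a, 0 ≤ f a)
    (hf1 : ∑ a, f a = 1) (κ : ℝ) (hκ : 0 < κ) :
    ((univ.filter (fun a => κ ≤ f a)).card : ℝ) * κ ≤ 1 := by
  calc ((univ.filter (fun a => κ ≤ f a)).card : ℝ) * κ
      = ∑ a ∈ univ.filter (fun a => κ ≤ f a), κ := by
        rw [Finset.sum_const, nsmul_eq_mul]
    _ ≤ ∑ a ∈ univ.filter (fun a => κ ≤ f a), f a :=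
        Finset.sum_le_sum fun a ha => (Finset.mem_filter.1 ha).2
    _ ≤ ∑ a, f a :=
        Finset.sum_le_sum_of_subset_of_nonneg (Finset.filter_subset _ _) fun a _ _ => hf a
    _ = 1 := hf1

/-- [DC-1b-3] -/
theorem sum_mul_one_sub {α : Type} [Fintype α] [DecidableEq α] (f : α → ℝ) (hf : ∀ a, 0 ≤ f a)
    (hf1 : ∑ a, f a = 1) : ∑ a, f a * (1 - f a) ≤ ent f := by
  unfold ent
  exact Finset.sum_le_sum fun a _ => mul_one_sub_le (hf a)

/-- [DC-1b-4] -/
theorem sum_heavy_one_sub {α : Type} [Fintype α] [DecidableEq α] (f : α → ℝ) (hf : ∀ a, 0 ≤ f a)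
    (hf1 : ∑ a, f a = 1) (κ : ℝ) (hκ : 0 < κ) :
    (∑ a ∈ univ.filter (fun a => κ ≤ f a), (1 - f a)) * κ ≤ ent f := by
  refine le_trans ?_ (sum_mul_one_sub f hf hf1)
  rw [Finset.sum_mul]
  calc ∑ a ∈ univ.filter (fun a => κ ≤ f a), (1 - f a) * κ
      ≤ ∑ a ∈ univ.filter (fun a => κ ≤ f a), f a * (1 - f a) := by
        apply Finset.sum_le_sum
        intro a ha
        have h1 : κ ≤ f a := (Finset.mem_filter.1 ha).2
        have h2 : 0 ≤ 1 - f a := by linarith [le_one hf hf1 a]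
        rw [mul_comm]
        exact mul_le_mul_of_nonneg_right h1 h2
    _ ≤ ∑ a, f a * (1 - f a) := by
        apply Finset.sum_le_sum_of_subset_of_nonneg (Finset.filter_subset _ _)
        intro a _ _
        exact mul_nonneg (hf a) (by linarith [le_one hf hf1 a])

/-- [DC-1b-5] -/
theorem ent_nonneg {α : Type} [Fintype α] [DecidableEq α] (f : α → ℝ) (hf : ∀ a, 0 ≤ f a)
    (hf1 : ∑ a, f a = 1) : 0 ≤ ent f := by
  unfold ent
  exact Finset.sum_nonneg fun a _ => nml_nonneg hf hf1 a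

end Pool.Agent.Helper80.DC
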