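import Pool.Agent.Helper80.DC.Defs
import Pool.Agent.Helper80.DC.Coll
import Pool.Agent.Helper80.DC.Mass

set_option autoImplicit false

/-!
# DC-1 NodeLemma

Proof. Fix `0 < κ < 1`, `L = log (1/κ)`. `a` is heavy if `κ ≤ f a` (set `H`), otherwise light;
`τ = ∑_{a light} f a`; `τ * L ≤ h_f = ent f` (`mass_light`). Same for `b`, `g`, `H'`, `τ'`.
Weights `G a b`: `f a * g b` (both heavy), `κ^2 * τ * g b` (`a` light, any `b`),
`κ^2 * τ' * f a` (`a` heavy, `b` light). `Z i z = ∑_{l i a + b = z} G a b`. Put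
`c i a b = log (Z i z / G a b)`, `z = l i a + b` if `0 < f a` and `0 < g b` (then
`0 < G a b ≤ Z i z`); otherwise `c i a b = 0`. Kraft is clear (`exp (-c) = G / Z`), `c ≥ 0` too.
For given `i, a, b`, `z = l i a + b` let `S i a b = ∑ f a1 * g b1` over all pairs `(a1, b1)` with
`a1 ≠ a` on the line (`coll`: `∑_i S i a b ≤ (1 - f a)(1 - g b)`). On a line each `a1` occurs
for exactly one `b1` and vice versa, so the weights of the pairs with `a1` light add up to at
most `κ^2 τ`, those with `a1` heavy, `b1` light to at most `κ^2 τ'`; the heavy pairs other than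
`(a, b)` to at most `S i a b`. With `log (1 + w) ≤ w` (i.e. `log x ≤ x - 1`):
* heavy/heavy: `Z ≤ f a g b + S + κ^2 (τ + τ')`, so
  `∑_i f a g b c i a b ≤ (1 - f a)(1 - g b) + K κ^2 (τ + τ')`; the sum over the heavy pairs is
  `≤ h_f / κ^2 + K (τ + τ')` (`card_heavy`, `sum_heavy_one_sub`);
* `a` light: `Z ≤ S + κ^2 (τ + τ')`, `c ≤ log (1/g b) + (S + κ^2 τ') / (κ^2 τ)`; so
  `∑_i f a g b c ≤ K f a (negMulLog (g b)) + f a g b (1 - g b) / (κ^2 τ) + K f a g b τ' / τ`,
  total over `a` light and all `b`: `≤ K τ h_g + h_g / κ^2 + K τ'` (`sum_mul_one_sub`);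
* `a` heavy, `b` light: `c ≤ log (1/f a) + (S + κ^2 τ) / (κ^2 τ')`, total
  `≤ K τ' h_f + h_f / κ^2 + K τ`.
Sum `≤ 2 K (τ + τ') + K (τ h_g + τ' h_f) + (2/κ^2)(h_f + h_g)
     ≤ K (2/L)(h_f + h_g + h_f h_g) + (2/κ^2)(h_f + h_g)`.
Choose `κ = exp (-4/η)` (`L = 4/η`), then `K ≥ 4/(κ^2 η)`.
-/

namespace Pool.Agent.Helper80.DC

open Finset

section

private noncomputable def mass {α : Type} [Fintype α] (f : α → ℝ) (κ : ℝ) : ℝ :=
  ∑ a ∈ univ.filter (fun a => f a < κ), f a

private noncomputable def Gw {α : Type} [Fintype α] (f g : α → ℝ) (κ : ℝ) (a b : α) : ℝ :=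
  if f a < κ then κ ^ 2 * mass f κ * g b
  else if g b < κ then κ ^ 2 * mass g κ * f a
  else f a * g b

private theorem mass_nonneg {α : Type} [Fintype α] (f : α → ℝ) (κ : ℝ) (hf : ∀ a, 0 ≤ f a) :
    0 ≤ mass f κ := Finset.sum_nonneg fun a _ => hf a

private theorem mass_pos {α : Type} [Fintype α] (f : α → ℝ) (κ : ℝ) (hf : ∀ a, 0 ≤ f a) (a : α)
    (ha : f a < κ) (ha0 : 0 < f a) : 0 < mass f κ :=
  lt_of_lt_of_le ha0 (Finset.single_le_sum (f := f) (fun b _ => hf b)
    (Finset.mem_filter.2 ⟨Finset.mem_univ a, ha⟩))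

private theorem Gw_nonneg {α : Type} [Fintype α] (f g : α → ℝ) (κ : ℝ) (hf : ∀ a, 0 ≤ f a)
    (hg : ∀ a, 0 ≤ g a) (a b : α) : 0 ≤ Gw f g κ a b := by
  have h1 := mass_nonneg f κ hf
  have h2 := mass_nonneg g κ hg
  have h3 := hf a
  have h4 := hg b
  unfold Gw
  split_ifs <;> positivity

private theorem Gw_pos {α : Type} [Fintype α] (f g : α → ℝ) (κ : ℝ) (hκ : 0 < κ)
    (hf : ∀ a, 0 ≤ f a) (hg : ∀ a, 0 ≤ g a) (a b : α) (ha : 0 < f a) (hb : 0 < g b) :
    0 < Gw f g κ a b := by
  unfold Gw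
  split_ifs with h1 h2
  · have := mass_pos f κ hf a h1 ha
    positivity
  · have := mass_pos g κ hg b h2 hb
    positivity
  · positivity

variable {p : ℕ} [Fact p.Prime]

private noncomputable def Zw (f g : ZMod p → ℝ) (κ : ℝ) (u z : ZMod p) : ℝ :=
  ∑ a, ∑ b, (if u * a + b = z then Gw f g κ a b else 0)

private noncomputable def Sw (f g : ZMod p → ℝ) (u a b : ZMod p) : ℝ :=
  ∑ a1, ∑ b1, (if u * a1 + b1 = u * a + b ∧ a1 ≠ a then f a1 * g b1 else 0)

private theorem Sw_nonneg (f g : ZMod p → ℝ) (hf : ∀ a, 0 ≤ f a) (hg : ∀ a, 0 ≤ g a)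
    (u a b : ZMod p) : 0 ≤ Sw f g u a b := by
  refine Finset.sum_nonneg fun a1 _ => Finset.sum_nonneg fun b1 _ => ?_
  split_ifs
  · exact mul_nonneg (hf _) (hg _)
  · exact le_rfl

private theorem Gw_le_Zw (f g : ZMod p → ℝ) (κ : ℝ) (hf : ∀ a, 0 ≤ f a)
    (hg : ∀ a, 0 ≤ g a) (u a b : ZMod p) : Gw f g κ a b ≤ Zw f g κ u (u * a + b) := by
  have hnn : ∀ a1 b1, (0 : ℝ) ≤ (if u * a1 + b1 = u * a + b then Gw f g κ a1 b1 else 0) := by
    intro a1 b1
    split_ifs
    · exact Gw_nonneg f g κ hf hg _ _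
    · exact le_rfl
  calc Gw f g κ a b = (if u * a + b = u * a + b then Gw f g κ a b else 0) := by simp
    _ ≤ ∑ b1, (if u * a + b1 = u * a + b then Gw f g κ a b1 else 0) :=
        Finset.single_le_sum (f := fun b1 => if u * a + b1 = u * a + b then Gw f g κ a b1 else 0)
          (fun b1 _ => hnn a b1) (Finset.mem_univ b)
    _ ≤ Zw f g κ u (u * a + b) :=
        Finset.single_le_sum
          (f := fun a1 => ∑ b1, (if u * a1 + b1 = u * a + b then Gw f g κ a1 b1 else 0))
          (fun a1 _ => Finset.sum_nonneg fun b1 _ => hnn a1 b1) (Finset.mem_univ a)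

private theorem line_sum (F : ZMod p → ℝ) (x z : ZMod p) :
    ∑ b, (if x + b = z then F b else 0) = F (z - x) := by
  have h : ∀ b, (if x + b = z then F b else 0) = if z - x = b then F b else 0 := by
    intro b
    have : x + b = z ↔ z - x = b := by
      constructor
      · intro h; rw [← h]; ring
      · intro h; rw [← h]; ring
    simp only [this]
  rw [Finset.sum_congr rfl fun b _ => h b, Finset.sum_ite_eq]
  simp

private theorem Zw_eq (f g : ZMod p → ℝ) (κ : ℝ) (u z : ZMod p) :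
    Zw f g κ u z = ∑ a, Gw f g κ a (z - u * a) :=
  Finset.sum_congr rfl fun a _ => line_sum (fun b => Gw f g κ a b) (u * a) z

private theorem Sw_eq (f g : ZMod p → ℝ) (u a b : ZMod p) :
    Sw f g u a b = ∑ a1, (if a1 ≠ a then f a1 * g (u * a + b - u * a1) else 0) := by
  refine Finset.sum_congr rfl fun a1 _ => ?_
  by_cases h : a1 = a
  · simp [h]
  · have h2 := line_sum (fun b1 => f a1 * g b1) (u * a1) (u * a + b)
    simp only [ne_eq, h, not_false_eq_true, and_true, if_true]
    exact h2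

private theorem Zw_le (f g : ZMod p → ℝ) (κ : ℝ) (hf : ∀ a, 0 ≤ f a)
    (hg : ∀ a, 0 ≤ g a) (hf1 : ∑ a, f a = 1) (hg1 : ∑ a, g a = 1) (u : ZMod p) (hu : u ≠ 0)
    (a b : ZMod p) :
    Zw f g κ u (u * a + b) ≤ (if f a < κ ∨ g b < κ then 0 else f a * g b) + Sw f g u a b +
      κ ^ 2 * (mass f κ + mass g κ) := by
  have hmf := mass_nonneg f κ hf
  have hmg := mass_nonneg g κ hg
  set z := u * a + b with hz
  have hbij : Function.Bijective (fun a1 : ZMod p => z - u * a1) := by
    rw [← Finite.injective_iff_bijective]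
    intro x y hxy
    have h1 : u * x = u * y := by
      have : z - u * x = z - u * y := hxy
      linear_combination -this
    exact mul_left_cancel₀ hu h1
  have hsum : ∑ a1, g (z - u * a1) = 1 := by
    rw [← hg1]
    exact Fintype.sum_bijective _ hbij _ _ fun _ => rfl
  have hpt : ∀ a1, Gw f g κ a1 (z - u * a1) ≤ κ ^ 2 * mass f κ * g (z - u * a1) +
      κ ^ 2 * mass g κ * f a1 + (if a1 ≠ a then f a1 * g (z - u * a1) else 0) +
      (if a = a1 then (if f a < κ ∨ g b < κ then 0 else f a * g b) else 0) := by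
    intro a1
    have h1 : 0 ≤ κ ^ 2 * mass f κ * g (z - u * a1) := by
      have := hg (z - u * a1)
      positivity
    have h2 : 0 ≤ κ ^ 2 * mass g κ * f a1 := by
      have := hf a1
      positivity
    have h3 : 0 ≤ (if a1 ≠ a then f a1 * g (z - u * a1) else 0) := by
      split_ifs
      · exact mul_nonneg (hf _) (hg _)
      · exact le_rfl
    have h4 : 0 ≤ (if a = a1 then (if f a < κ ∨ g b < κ then 0 else f a * g b) else 0) := by
      split_ifs
      · exact le_rfl
      · exact mul_nonneg (hf _) (hg _)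
      · exact le_rfl
    by_cases c1 : f a1 < κ
    · have e : Gw f g κ a1 (z - u * a1) = κ ^ 2 * mass f κ * g (z - u * a1) := by
        rw [Gw, if_pos c1]
      rw [e]
      linarith
    by_cases c2 : g (z - u * a1) < κ
    · have e : Gw f g κ a1 (z - u * a1) = κ ^ 2 * mass g κ * f a1 := by
        rw [Gw, if_neg c1, if_pos c2]
      rw [e]
      linarith
    · have e : Gw f g κ a1 (z - u * a1) = f a1 * g (z - u * a1) := by
        rw [Gw, if_neg c1, if_neg c2]
      rw [e]
      by_cases h : a1 = a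
      · subst h
        have hb : z - u * a1 = b := by rw [hz]; ring
        rw [hb] at c2 h1 ⊢
        have hh : ¬ (f a1 < κ ∨ g b < κ) := by
          rintro (h | h)
          · exact c1 h
          · exact c2 h
        simp only [ne_eq, not_true_eq_false, if_false, if_true, hh]
        linarith
      · have : a1 ≠ a := h
        rw [if_pos this]
        linarith
  rw [Zw_eq, Sw_eq]
  refine (Finset.sum_le_sum fun a1 _ => hpt a1).trans (le_of_eq ?_)
  rw [Finset.sum_add_distrib, Finset.sum_add_distrib, Finset.sum_add_distrib, ← Finset.mul_sum,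
    ← Finset.mul_sum, hsum, hf1, Finset.sum_ite_eq]
  simp only [Finset.mem_univ, if_true]
  ring

end

section

private theorem log_bound (Z G x w : ℝ) (hZ : 0 < Z) (hG : 0 < G) (hx : 0 < x) (hw : 0 ≤ w)
    (h : Z * x ≤ G * (1 + w)) : Real.log (Z / G) ≤ -Real.log x + w := by
  have h1 : Z / G ≤ (1 + w) / x := by
    rw [div_le_div_iff₀ hG hx]
    linarith
  have h2 : Real.log (Z / G) ≤ Real.log ((1 + w) / x) := Real.log_le_log (by positivity) h1
  rw [Real.log_div (show (1 + w) ≠ 0 by positivity) hx.ne'] at h2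
  have h3 : Real.log (1 + w) ≤ w := by
    have := Real.log_le_sub_one_of_pos (show 0 < 1 + w by positivity)
    linarith
  linarith

private noncomputable def Tw {α : Type} [Fintype α] (f g : α → ℝ) (κ : ℝ) (S : ℝ) (a b : α) : ℝ :=
  if f a < κ then
    f a * Real.negMulLog (g b) + f a * g b * ((S + κ ^ 2 * mass g κ) / (κ ^ 2 * mass f κ))
  else if g b < κ then
    g b * Real.negMulLog (f a) + f a * g b * ((S + κ ^ 2 * mass f κ) / (κ ^ 2 * mass g κ))
  else S + κ ^ 2 * (mass f κ + mass g κ)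

variable {p : ℕ} [Fact p.Prime]

private theorem le_one_of (f : ZMod p → ℝ) (hf : ∀ a, 0 ≤ f a) (hf1 : ∑ a, f a = 1)
    (a : ZMod p) : f a ≤ 1 := by
  rw [← hf1]
  exact Finset.single_le_sum (f := f) (fun b _ => hf b) (Finset.mem_univ a)

private theorem Tw_nonneg (f g : ZMod p → ℝ) (κ : ℝ) (hf : ∀ a, 0 ≤ f a)
    (hg : ∀ a, 0 ≤ g a) (hf1 : ∑ a, f a = 1) (hg1 : ∑ a, g a = 1) (S : ℝ) (hS : 0 ≤ S)
    (a b : ZMod p) : 0 ≤ Tw f g κ S a b := by
  have h1 := mass_nonneg f κ hf
  have h2 := mass_nonneg g κ hg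
  have h3 := hf a
  have h4 := hg b
  have h5 := Real.negMulLog_nonneg h3 (le_one_of f hf hf1 a)
  have h6 := Real.negMulLog_nonneg h4 (le_one_of g hg hg1 b)
  unfold Tw
  split_ifs <;> positivity

private theorem cost_le (f g : ZMod p → ℝ) (κ : ℝ) (hκ : 0 < κ) (hf : ∀ a, 0 ≤ f a)
    (hg : ∀ a, 0 ≤ g a) (hf1 : ∑ a, f a = 1) (hg1 : ∑ a, g a = 1) (u : ZMod p) (hu : u ≠ 0)
    (a b : ZMod p) (ha : 0 < f a) (hb : 0 < g b) :
    f a * g b * Real.log (Zw f g κ u (u * a + b) / Gw f g κ a b) ≤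
      Tw f g κ (Sw f g u a b) a b := by
  have hG := Gw_pos f g κ hκ hf hg a b ha hb
  have hZ : 0 < Zw f g κ u (u * a + b) := lt_of_lt_of_le hG (Gw_le_Zw f g κ hf hg u a b)
  have hS := Sw_nonneg f g hf hg u a b
  have hle := Zw_le f g κ hf hg hf1 hg1 u hu a b
  have hmf := mass_nonneg f κ hf
  have hmg := mass_nonneg g κ hg
  set S := Sw f g u a b
  set Z := Zw f g κ u (u * a + b)
  by_cases c1 : f a < κ
  · have hm := mass_pos f κ hf a c1 ha
    have eG : Gw f g κ a b = κ ^ 2 * mass f κ * g b := by rw [Gw, if_pos c1]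
    rw [if_pos (Or.inl c1)] at hle
    rw [Tw, if_pos c1, eG]
    have hw : 0 ≤ (S + κ ^ 2 * mass g κ) / (κ ^ 2 * mass f κ) := by positivity
    have h1 := log_bound Z (κ ^ 2 * mass f κ * g b) (g b) _ hZ (by rw [← eG]; exact hG) hb hw (by
      have e : κ ^ 2 * mass f κ * g b * (1 + (S + κ ^ 2 * mass g κ) / (κ ^ 2 * mass f κ)) =
          (κ ^ 2 * mass f κ + (S + κ ^ 2 * mass g κ)) * g b := by
        field_simp
      rw [e]
      refine mul_le_mul_of_nonneg_right ?_ hb.le
      linarith)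
    have h2 := mul_le_mul_of_nonneg_left h1 (mul_pos ha hb).le
    refine h2.trans (le_of_eq ?_)
    rw [Real.negMulLog]
    ring
  by_cases c2 : g b < κ
  · have hm := mass_pos g κ hg b c2 hb
    have eG : Gw f g κ a b = κ ^ 2 * mass g κ * f a := by rw [Gw, if_neg c1, if_pos c2]
    rw [if_pos (Or.inr c2)] at hle
    rw [Tw, if_neg c1, if_pos c2, eG]
    have hw : 0 ≤ (S + κ ^ 2 * mass f κ) / (κ ^ 2 * mass g κ) := by positivity
    have h1 := log_bound Z (κ ^ 2 * mass g κ * f a) (f a) _ hZ (by rw [← eG]; exact hG) ha hw (by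
      have e : κ ^ 2 * mass g κ * f a * (1 + (S + κ ^ 2 * mass f κ) / (κ ^ 2 * mass g κ)) =
          (κ ^ 2 * mass g κ + (S + κ ^ 2 * mass f κ)) * f a := by
        field_simp
      rw [e]
      refine mul_le_mul_of_nonneg_right ?_ ha.le
      linarith)
    have h2 := mul_le_mul_of_nonneg_left h1 (mul_pos ha hb).le
    refine h2.trans (le_of_eq ?_)
    rw [Real.negMulLog]
    ring
  · have eG : Gw f g κ a b = f a * g b := by rw [Gw, if_neg c1, if_neg c2]
    rw [if_neg (by tauto)] at hle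
    rw [Tw, if_neg c1, if_neg c2, eG]
    have hab : 0 < f a * g b := mul_pos ha hb
    have hw : 0 ≤ (S + κ ^ 2 * (mass f κ + mass g κ)) / (f a * g b) := by positivity
    have h1 := log_bound Z (f a * g b) 1 _ hZ hab one_pos hw (by
      have e : f a * g b * (1 + (S + κ ^ 2 * (mass f κ + mass g κ)) / (f a * g b)) =
          f a * g b + (S + κ ^ 2 * (mass f κ + mass g κ)) := by
        field_simp
      rw [e]
      linarith)
    rw [Real.log_one, neg_zero, zero_add] at h1
    have h2 := mul_le_mul_of_nonneg_left h1 hab.le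
    refine h2.trans (le_of_eq ?_)
    field_simp

private noncomputable def Uw {α : Type} [Fintype α] (f g : α → ℝ) (κ : ℝ) (K : ℝ) (a b : α) : ℝ :=
  if f a < κ then
    K * (f a * Real.negMulLog (g b)) +
      f a * g b * ((1 - g b + K * (κ ^ 2 * mass g κ)) / (κ ^ 2 * mass f κ))
  else if g b < κ then
    K * (g b * Real.negMulLog (f a)) +
      g b * f a * ((1 - f a + K * (κ ^ 2 * mass f κ)) / (κ ^ 2 * mass g κ))
  else 1 - f a + K * (κ ^ 2 * (mass f κ + mass g κ))

private theorem sum_Tw_le (f g : ZMod p → ℝ) (κ : ℝ) (hf : ∀ a, 0 ≤ f a)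
    (hg : ∀ a, 0 ≤ g a) (hf1 : ∑ a, f a = 1) (hg1 : ∑ a, g a = 1) {K : ℕ} (S : Fin K → ℝ)
    (a b : ZMod p) (hS : ∑ i, S i ≤ (1 - f a) * (1 - g b)) :
    ∑ i, Tw f g κ (S i) a b ≤ Uw f g κ K a b := by
  have h1 := mass_nonneg f κ hf
  have h2 := mass_nonneg g κ hg
  have h3 := hf a
  have h4 := hg b
  have h5 := le_one_of f hf hf1 a
  have h6 := le_one_of g hg hg1 b
  have hS1 : ∑ i, S i ≤ 1 - g b := hS.trans (by nlinarith)
  have hS2 : ∑ i, S i ≤ 1 - f a := hS.trans (by nlinarith)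
  by_cases c1 : f a < κ
  · have e : ∑ i, Tw f g κ (S i) a b = K * (f a * Real.negMulLog (g b)) +
        f a * g b * ((∑ i, S i + K * (κ ^ 2 * mass g κ)) / (κ ^ 2 * mass f κ)) := by
      simp only [Tw, if_pos c1, Finset.sum_add_distrib, Finset.sum_const, Finset.card_univ,
        Fintype.card_fin, nsmul_eq_mul]
      rw [← Finset.mul_sum, ← Finset.sum_div, Finset.sum_add_distrib]
      simp
    rw [e, Uw, if_pos c1]
    gcongr
  by_cases c2 : g b < κ
  · have e : ∑ i, Tw f g κ (S i) a b = K * (g b * Real.negMulLog (f a)) +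
        g b * f a * ((∑ i, S i + K * (κ ^ 2 * mass f κ)) / (κ ^ 2 * mass g κ)) := by
      simp only [Tw, if_neg c1, if_pos c2, Finset.sum_add_distrib, Finset.sum_const,
        Finset.card_univ, Fintype.card_fin, nsmul_eq_mul]
      rw [← Finset.mul_sum, ← Finset.sum_div, Finset.sum_add_distrib, mul_comm (g b) (f a)]
      simp
    rw [e, Uw, if_neg c1, if_pos c2]
    gcongr
  · have e : ∑ i, Tw f g κ (S i) a b = ∑ i, S i + K * (κ ^ 2 * (mass f κ + mass g κ)) := by
      simp only [Tw, if_neg c1, if_neg c2]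
      rw [Finset.sum_add_distrib]
      simp
    rw [e, Uw, if_neg c1, if_neg c2]
    gcongr

private theorem partA (f g : ZMod p → ℝ) (κ : ℝ) (hκ : 0 < κ) (hf : ∀ a, 0 ≤ f a)
    (hg : ∀ a, 0 ≤ g a) (hg1 : ∑ a, g a = 1) (K : ℝ) (hK : 0 ≤ K) :
    ∑ a ∈ univ.filter (fun a => f a < κ), ∑ b, (K * (f a * Real.negMulLog (g b)) +
      f a * g b * ((1 - g b + K * (κ ^ 2 * mass g κ)) / (κ ^ 2 * mass f κ))) ≤
      K * mass f κ * ent g + ent g / κ ^ 2 + K * mass g κ := by
  have h1 := mass_nonneg f κ hf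
  have h2 := mass_nonneg g κ hg
  have hE := sum_mul_one_sub g hg hg1
  have hE0 : 0 ≤ ∑ a, g a * (1 - g a) := Finset.sum_nonneg fun a _ =>
    mul_nonneg (hg a) (by linarith [le_one_of g hg hg1 a])
  have hin : ∀ a, ∑ b, (K * (f a * Real.negMulLog (g b)) +
      f a * g b * ((1 - g b + K * (κ ^ 2 * mass g κ)) / (κ ^ 2 * mass f κ))) =
      f a * (K * ent g + (∑ b, g b * (1 - g b) + K * (κ ^ 2 * mass g κ)) /
        (κ ^ 2 * mass f κ)) := by
    intro a
    have e1 : ∀ b, K * (f a * Real.negMulLog (g b)) +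
        f a * g b * ((1 - g b + K * (κ ^ 2 * mass g κ)) / (κ ^ 2 * mass f κ)) =
        f a * (K * Real.negMulLog (g b)) + f a / (κ ^ 2 * mass f κ) * (g b * (1 - g b)) +
          f a / (κ ^ 2 * mass f κ) * (K * (κ ^ 2 * mass g κ)) * g b := by
      intro b
      ring
    rw [Finset.sum_congr rfl fun b _ => e1 b, Finset.sum_add_distrib, Finset.sum_add_distrib,
      ← Finset.mul_sum, ← Finset.mul_sum, ← Finset.mul_sum, ← Finset.mul_sum, hg1, ent]
    ring
  rw [Finset.sum_congr rfl fun a _ => hin a, ← Finset.sum_mul]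
  have e2 : ∑ a ∈ univ.filter (fun a => f a < κ), f a = mass f κ := rfl
  rw [e2, mul_add]
  have h3 : mass f κ * ((∑ b, g b * (1 - g b) + K * (κ ^ 2 * mass g κ)) / (κ ^ 2 * mass f κ)) ≤
      (∑ b, g b * (1 - g b) + K * (κ ^ 2 * mass g κ)) / κ ^ 2 := by
    rcases h1.eq_or_lt with h0 | h0
    · rw [← h0]
      simp only [zero_mul]
      positivity
    · refine le_of_eq ?_
      field_simp
  have h4 : (∑ b, g b * (1 - g b) + K * (κ ^ 2 * mass g κ)) / κ ^ 2 ≤
      ent g / κ ^ 2 + K * mass g κ := by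
    have e3 : ent g / κ ^ 2 + K * mass g κ = (ent g + K * (κ ^ 2 * mass g κ)) / κ ^ 2 := by
      field_simp
    rw [e3]
    gcongr
  have e4 : mass f κ * (K * ent g) = K * mass f κ * ent g := by ring
  rw [e4]
  linarith

private theorem sum_Uw_le (f g : ZMod p → ℝ) (κ : ℝ) (hκ : 0 < κ) (hf : ∀ a, 0 ≤ f a)
    (hg : ∀ a, 0 ≤ g a) (hf1 : ∑ a, f a = 1) (hg1 : ∑ a, g a = 1) (K : ℝ) (hK : 0 ≤ K) :
    ∑ a, ∑ b, Uw f g κ K a b ≤ 2 * K * (mass f κ + mass g κ) +
      K * (mass f κ * ent g + mass g κ * ent f) + (2 * ent f + ent g) / κ ^ 2 := by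
  have h1 := mass_nonneg f κ hf
  have h2 := mass_nonneg g κ hg
  have hsplit : ∑ a, ∑ b, Uw f g κ K a b =
      ∑ a ∈ univ.filter (fun a => f a < κ), ∑ b, (K * (f a * Real.negMulLog (g b)) +
        f a * g b * ((1 - g b + K * (κ ^ 2 * mass g κ)) / (κ ^ 2 * mass f κ))) +
      ∑ a ∈ univ.filter (fun a => κ ≤ f a),
        (∑ b ∈ univ.filter (fun b => g b < κ), (K * (g b * Real.negMulLog (f a)) +
          g b * f a * ((1 - f a + K * (κ ^ 2 * mass f κ)) / (κ ^ 2 * mass g κ))) +
        ∑ b ∈ univ.filter (fun b => κ ≤ g b),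
          (1 - f a + K * (κ ^ 2 * (mass f κ + mass g κ)))) := by
    rw [← Finset.sum_filter_add_sum_filter_not univ (fun a => f a < κ)]
    congr 1
    · refine Finset.sum_congr rfl fun a ha => Finset.sum_congr rfl fun b _ => ?_
      rw [Uw, if_pos (Finset.mem_filter.1 ha).2]
    · have e1 : univ.filter (fun a => ¬ f a < κ) = univ.filter (fun a => κ ≤ f a) := by
        ext a; simp
      rw [e1]
      refine Finset.sum_congr rfl fun a ha => ?_
      have ha' : ¬ f a < κ := not_lt.2 (Finset.mem_filter.1 ha).2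
      rw [← Finset.sum_filter_add_sum_filter_not univ (fun b => g b < κ)]
      congr 1
      · refine Finset.sum_congr rfl fun b hb => ?_
        rw [Uw, if_neg ha', if_pos (Finset.mem_filter.1 hb).2]
      · have e2 : univ.filter (fun a => ¬ g a < κ) = univ.filter (fun a => κ ≤ g a) := by
          ext a; simp
        rw [e2]
        refine Finset.sum_congr rfl fun b hb => ?_
        have hb' : ¬ g b < κ := not_lt.2 (Finset.mem_filter.1 hb).2
        rw [Uw, if_neg ha', if_neg hb']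
  have hA := partA f g κ hκ hf hg hg1 K hK
  have hB0 := partA g f κ hκ hg hf hf1 K hK
  have hB : ∑ a ∈ univ.filter (fun a => κ ≤ f a),
        ∑ b ∈ univ.filter (fun b => g b < κ), (K * (g b * Real.negMulLog (f a)) +
          g b * f a * ((1 - f a + K * (κ ^ 2 * mass f κ)) / (κ ^ 2 * mass g κ))) ≤
      K * mass g κ * ent f + ent f / κ ^ 2 + K * mass f κ := by
    refine le_trans ?_ hB0
    rw [Finset.sum_comm]
    refine Finset.sum_le_sum fun b _ => ?_
    refine Finset.sum_le_sum_of_subset_of_nonneg (Finset.filter_subset _ _) fun a _ _ => ?_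
    have h3 := hf a
    have h4 := hg b
    have h5 := le_one_of f hf hf1 a
    have h6 := Real.negMulLog_nonneg h3 h5
    have h7 : 0 ≤ 1 - f a := by linarith
    positivity
  have hC : ∑ a ∈ univ.filter (fun a => κ ≤ f a), ∑ b ∈ univ.filter (fun b => κ ≤ g b),
        (1 - f a + K * (κ ^ 2 * (mass f κ + mass g κ))) ≤
      ent f / κ ^ 2 + K * (mass f κ + mass g κ) := by
    have c1 := card_heavy f hf hf1 κ hκ
    have c2 := card_heavy g hg hg1 κ hκ
    have c3 := sum_heavy_one_sub f hf hf1 κ hκ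
    have c4 : 0 ≤ ∑ a ∈ univ.filter (fun a => κ ≤ f a), (1 - f a) :=
      Finset.sum_nonneg fun a _ => by linarith [le_one_of f hf hf1 a]
    have e1 : ∑ a ∈ univ.filter (fun a => κ ≤ f a), ∑ b ∈ univ.filter (fun b => κ ≤ g b),
        (1 - f a + K * (κ ^ 2 * (mass f κ + mass g κ))) =
        ((univ.filter (fun b => κ ≤ g b)).card : ℝ) *
          ∑ a ∈ univ.filter (fun a => κ ≤ f a), (1 - f a) +
        ((univ.filter (fun b => κ ≤ g b)).card : ℝ) *
          ((univ.filter (fun a => κ ≤ f a)).card : ℝ) *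
          (K * (κ ^ 2 * (mass f κ + mass g κ))) := by
      simp only [Finset.sum_const, nsmul_eq_mul]
      rw [← Finset.mul_sum, Finset.sum_add_distrib, Finset.sum_const, nsmul_eq_mul]
      ring
    rw [e1]
    set X := ∑ a ∈ univ.filter (fun a => κ ≤ f a), (1 - f a)
    set m := ((univ.filter (fun a => κ ≤ f a)).card : ℝ) with hm
    set n := ((univ.filter (fun b => κ ≤ g b)).card : ℝ) with hn
    have hm0 : 0 ≤ m := by rw [hm]; positivity
    have hn0 : 0 ≤ n := by rw [hn]; positivity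
    have hnk : 0 ≤ n * κ := by positivity
    have hmk : 0 ≤ m * κ := by positivity
    have hent : 0 ≤ ent f := ent_nonneg f hf hf1
    have d1 : n * X ≤ ent f / κ ^ 2 := by
      rw [le_div_iff₀ (by positivity)]
      calc n * X * κ ^ 2 = (n * κ) * (X * κ) := by ring
        _ ≤ 1 * ent f := mul_le_mul c2 c3 (by positivity) (by norm_num)
        _ = ent f := one_mul _
    have d2 : n * m * (K * (κ ^ 2 * (mass f κ + mass g κ))) ≤ K * (mass f κ + mass g κ) := by
      calc n * m * (K * (κ ^ 2 * (mass f κ + mass g κ))) =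
          ((n * κ) * (m * κ)) * (K * (mass f κ + mass g κ)) := by ring
        _ ≤ (1 * 1) * (K * (mass f κ + mass g κ)) := by
            refine mul_le_mul_of_nonneg_right (mul_le_mul c2 c1 hmk (by norm_num)) ?_
            positivity
        _ = K * (mass f κ + mass g κ) := by ring
    linarith
  rw [hsplit, Finset.sum_add_distrib]
  have e5 : (2 * ent f + ent g) / κ ^ 2 = ent f / κ ^ 2 + ent f / κ ^ 2 + ent g / κ ^ 2 := by
    ring
  rw [e5]
  nlinarith [hA, hB, hC]

private theorem node_bound (η : ℝ) (hη : 0 < η) (K : ℕ)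
    (hK : 4 / ((Real.exp (-(4 / η))) ^ 2 * η) ≤ K) : NodeProp η K := by
  intro p _ f g hf hg hf1 hg1 l hl hl0
  set κ := Real.exp (-(4 / η)) with hκdef
  have hκ : 0 < κ := Real.exp_pos _
  have hκ1 : κ < 1 := by
    rw [hκdef, Real.exp_lt_one_iff]
    have : 0 < 4 / η := by positivity
    linarith
  have hlog : Real.log (1 / κ) = 4 / η := by
    rw [one_div, Real.log_inv, hκdef, Real.log_exp]
    ring
  have hK0 : (0 : ℝ) ≤ K := by positivity
  refine ⟨fun i a b => if 0 < f a ∧ 0 < g b then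
      Real.log (Zw f g κ (l i) (l i * a + b) / Gw f g κ a b) else 0, ?_, ?_, ?_⟩
  · intro i a b
    by_cases h : 0 < f a ∧ 0 < g b
    · simp only [if_pos h]
      refine Real.log_nonneg ?_
      rw [one_le_div (Gw_pos f g κ hκ hf hg a b h.1 h.2)]
      exact Gw_le_Zw f g κ hf hg (l i) a b
    · simp only [if_neg h, le_refl]
  · intro i z
    have hterm : ∀ a b, (if l i * a + b = z ∧ 0 < f a ∧ 0 < g b then
        Real.exp (-(if 0 < f a ∧ 0 < g b then
          Real.log (Zw f g κ (l i) (l i * a + b) / Gw f g κ a b) else 0)) else 0) ≤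
        (if l i * a + b = z then Gw f g κ a b else 0) / Zw f g κ (l i) z := by
      intro a b
      have hZ0 : 0 ≤ Zw f g κ (l i) z := by
        refine Finset.sum_nonneg fun a1 _ => Finset.sum_nonneg fun b1 _ => ?_
        split_ifs
        · exact Gw_nonneg f g κ hf hg _ _
        · exact le_rfl
      by_cases h : l i * a + b = z ∧ 0 < f a ∧ 0 < g b
      · have hG := Gw_pos f g κ hκ hf hg a b h.2.1 h.2.2
        have hZ : 0 < Zw f g κ (l i) (l i * a + b) :=
          lt_of_lt_of_le hG (Gw_le_Zw f g κ hf hg (l i) a b)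
        rw [if_pos h, if_pos h.2, if_pos h.1, ← Real.log_inv, Real.exp_log (by positivity),
          inv_div, h.1]
      · rw [if_neg h]
        refine div_nonneg ?_ hZ0
        split_ifs
        · exact Gw_nonneg f g κ hf hg _ _
        · exact le_rfl
    calc _ ≤ ∑ a, ∑ b, (if l i * a + b = z then Gw f g κ a b else 0) / Zw f g κ (l i) z :=
          Finset.sum_le_sum fun a _ => Finset.sum_le_sum fun b _ => hterm a b
      _ = Zw f g κ (l i) z / Zw f g κ (l i) z := by
          rw [Zw, Finset.sum_div]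
          refine Finset.sum_congr rfl fun a _ => ?_
          rw [Finset.sum_div]
      _ ≤ 1 := div_self_le_one _
  · have hSnn : ∀ i a b, 0 ≤ Sw f g (l i) a b := fun i a b => Sw_nonneg f g hf hg (l i) a b
    have hstep1 : ∀ i a b, f a * g b * (if 0 < f a ∧ 0 < g b then
        Real.log (Zw f g κ (l i) (l i * a + b) / Gw f g κ a b) else 0) ≤
        Tw f g κ (Sw f g (l i) a b) a b := by
      intro i a b
      by_cases h : 0 < f a ∧ 0 < g b
      · rw [if_pos h]
        exact cost_le f g κ hκ hf hg hf1 hg1 (l i) (hl0 i) a b h.1 h.2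
      · rw [if_neg h, mul_zero]
        exact Tw_nonneg f g κ hf hg hf1 hg1 _ (hSnn i a b) a b
    have hstep2 : ∑ i, ∑ a, ∑ b, f a * g b * (if 0 < f a ∧ 0 < g b then
        Real.log (Zw f g κ (l i) (l i * a + b) / Gw f g κ a b) else 0) ≤
        ∑ a, ∑ b, Uw f g κ K a b := by
      refine (Finset.sum_le_sum fun i _ => Finset.sum_le_sum fun a _ =>
        Finset.sum_le_sum fun b _ => hstep1 i a b).trans ?_
      rw [Finset.sum_comm]
      refine Finset.sum_le_sum fun a _ => ?_
      rw [Finset.sum_comm]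
      refine Finset.sum_le_sum fun b _ => ?_
      exact sum_Tw_le f g κ hf hg hf1 hg1 (fun i => Sw f g (l i) a b) a b
        (coll p f g hf hg hf1 hg1 l hl hl0 a b)
    refine hstep2.trans ((sum_Uw_le f g κ hκ hf hg hf1 hg1 K hK0).trans ?_)
    have hm1 := mass_nonneg f κ hf
    have hm2 := mass_nonneg g κ hg
    have he1 := ent_nonneg f hf hf1
    have he2 := ent_nonneg g hg hg1
    have hl1 : mass f κ ≤ η / 4 * ent f := by
      have := mass_light f hf hf1 κ hκ hκ1
      rw [hlog] at this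
      have h3 : mass f κ * (4 / η) ≤ ent f := this
      calc mass f κ = η / 4 * (mass f κ * (4 / η)) := by field_simp
        _ ≤ η / 4 * ent f := by gcongr
    have hl2 : mass g κ ≤ η / 4 * ent g := by
      have := mass_light g hg hg1 κ hκ hκ1
      rw [hlog] at this
      have h3 : mass g κ * (4 / η) ≤ ent g := this
      calc mass g κ = η / 4 * (mass g κ * (4 / η)) := by field_simp
        _ ≤ η / 4 * ent g := by gcongr
    have hK2 : 1 / κ ^ 2 ≤ K * η / 4 := by
      rw [div_le_iff₀ (by positivity)] at hK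
      rw [div_le_iff₀ (by positivity)]
      nlinarith [hK]
    have t1 : 2 * (K : ℝ) * (mass f κ + mass g κ) ≤
        2 * K * (η / 4 * ent f + η / 4 * ent g) := by gcongr
    have t2 : (K : ℝ) * (mass f κ * ent g + mass g κ * ent f) ≤
        K * (η / 4 * ent f * ent g + η / 4 * ent g * ent f) := by gcongr
    have t3 : (2 * ent f + ent g) / κ ^ 2 ≤ (2 * ent f + 2 * ent g) * (K * η / 4) := by
      calc (2 * ent f + ent g) / κ ^ 2 = (2 * ent f + ent g) * (1 / κ ^ 2) := by ring
        _ ≤ (2 * ent f + 2 * ent g) * (K * η / 4) := by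
            refine mul_le_mul ?_ hK2 (by positivity) (by positivity)
            linarith
    have t4 : 0 ≤ (K : ℝ) * η * (ent f * ent g) := by positivity
    nlinarith [t1, t2, t3, t4]

end

/-- [DC-1] the node lemma -/
theorem node_exists : ∀ η : ℝ, 0 < η → ∃ K : ℕ, 0 < K ∧ NodeProp η K := by
  intro η hη
  obtain ⟨K, hK⟩ := exists_nat_ge (4 / ((Real.exp (-(4 / η))) ^ 2 * η))
  refine ⟨K, ?_, node_bound η hη K hK⟩
  have h : (0 : ℝ) < K := lt_of_lt_of_le (by positivity) hK
  exact_mod_cast h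

end Pool.Agent.Helper80.DC
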