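import Pool.Agent.Helper80.DC.Defs
import Pool.Agent.Helper80.DC.NodeSum
import Pool.Agent.Helper80.DC.Digit
import Pool.Agent.Helper80.DC.PhiFacts

set_option autoImplicit false

/-!
# DC-5 NodeStep: one digit of `x` and one digit of `y`

Proof. Put `j = s + D`, `α x = x % (m p^j)`, `β y = y % (m' p^s)`, `δ = dig p j`, `δ' = dig p s`.
`nodeSum` (with `l i = v1 i`) gives `cn i a b u t`; put
`c' i x y = c i x y + cn i (α x) (β y) (δ' y) (δ x)`. The total is clear (`gap_dig`).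
Kraft for `(a, b, w)`: if there is no pair `(x, y)` in `X × Y` with `α x = a`, `β y = b`,
`x + p^D v1 y = w`, the sum is `0`. Otherwise take such a pair `(x1, y1)` and put
`z = v1 i * δ' y1 + δ x1`. By `dig_add` all other such pairs have `v1 i * δ' y + δ x = z`. Group
the pairs by `(u, t) = (δ' y, δ x)`: the sum is at most
`∑_u ∑_t [v1 i * u + t = z, u and t occur in the classes b and a] exp (-cn i a b u t) * S u t`
where `S u t` is the sum of `exp (-c i x y)` over the pairs with `α x = a, δ x = t, β y = b,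
δ' y = u, x + p^D v1 y = w`. By `dig_iff`, `α x = a, δ x = t` means: `x` is in one residue class
mod `m p^(j+1)` (the class of any `x0` with `α x0 = a, δ x0 = t`), same for `y`; so `S u t ≤ 1` by
`hadm`. Now use the Kraft inequality of `cn`.
-/

namespace Pool.Agent.Helper80.DC

open Finset

/-- [DC-5] -/
theorem nodeStep {η : ℝ} {K : ℕ} (h : NodeProp η K) (p : ℕ) [Fact p.Prime] (X Y : Finset ℤ)
    (hX : X.Nonempty) (hY : Y.Nonempty) (m m' : ℕ) (hm : 0 < m) (hm' : 0 < m')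
    (hpm : ¬ p ∣ m) (hpm' : ¬ p ∣ m') (s D : ℕ) (v1 : Fin K → ℤ)
    (hinj : Function.Injective (fun i => (v1 i : ZMod p))) (h0 : ∀ i, (v1 i : ZMod p) ≠ 0)
    (c : Fin K → ℤ → ℤ → ℝ) (hc : ∀ i x y, 0 ≤ c i x y)
    (hadm : ∀ i, Adm X Y (m * p ^ (s + D + 1)) (m' * p ^ (s + 1)) ((p : ℤ) ^ D * v1 i) (c i)) :
    ∃ c' : Fin K → ℤ → ℤ → ℝ, (∀ i x y, 0 ≤ c' i x y) ∧
      (∀ i, Adm X Y (m * p ^ (s + D)) (m' * p ^ s) ((p : ℤ) ^ D * v1 i) (c' i)) ∧
      ∑ i, ∑ x ∈ X, ∑ y ∈ Y, c' i x y ≤ ∑ i, ∑ x ∈ X, ∑ y ∈ Y, c i x y +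
        K * (η * (X.card * Y.card *
          ((Phi X (m * p ^ (s + D)) - Phi X (m * p ^ (s + D + 1))) +
           (Phi Y (m' * p ^ s) - Phi Y (m' * p ^ (s + 1))) +
           (Phi X (m * p ^ (s + D)) - Phi X (m * p ^ (s + D + 1))) *
           (Phi Y (m' * p ^ s) - Phi Y (m' * p ^ (s + 1)))))) := by
  classical
  have hp : p.Prime := Fact.out
  obtain ⟨cn, cn0, cnK, cnS⟩ := nodeSum h p X Y hX hY
    (fun x => x % ((m * p ^ (s + D) : ℕ) : ℤ)) (fun y => y % ((m' * p ^ s : ℕ) : ℤ))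
    (dig p (s + D)) (dig p s) (fun i => (v1 i : ZMod p)) hinj h0
  rw [gap_dig p (s + D) m hp hpm hm X, gap_dig p s m' hp hpm' hm' Y] at cnS
  refine ⟨fun i x y => c i x y + cn i (x % ((m * p ^ (s + D) : ℕ) : ℤ))
    (y % ((m' * p ^ s : ℕ) : ℤ)) (dig p s y) (dig p (s + D) x), ?_, ?_, ?_⟩
  · intro i x y
    exact add_nonneg (hc i x y) (cn0 _ _ _ _ _)
  · intro i a b w
    by_cases hex : ∃ x1 y1 : ℤ, x1 ∈ X ∧ y1 ∈ Y ∧ x1 % ((m * p ^ (s + D) : ℕ) : ℤ) = a ∧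
        y1 % ((m' * p ^ s : ℕ) : ℤ) = b ∧ x1 + (p : ℤ) ^ D * v1 i * y1 = w
    swap
    · refine le_trans (le_of_eq ?_) zero_le_one
      refine Finset.sum_eq_zero fun x hx => Finset.sum_eq_zero fun y hy => ?_
      rw [if_neg]
      rintro ⟨h1, h2, h3⟩
      exact hex ⟨x, y, hx, hy, h1, h2, h3⟩
    obtain ⟨x1, y1, hx1, hy1, ha1, hb1, hw1⟩ := hex
    set z : ZMod p := (v1 i : ZMod p) * dig p s y1 + dig p (s + D) x1 with hz
    -- the sums over the sub-classes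
    have hS : ∀ u t : ZMod p, ∑ x ∈ X, ∑ y ∈ Y,
        (if (x % ((m * p ^ (s + D) : ℕ) : ℤ) = a ∧ y % ((m' * p ^ s : ℕ) : ℤ) = b ∧
          x + (p : ℤ) ^ D * v1 i * y = w) ∧ dig p s y = u ∧ dig p (s + D) x = t
          then Real.exp (-(c i x y)) else 0) ≤
        (if (v1 i : ZMod p) * u + t = z ∧
            (∃ y ∈ Y, y % ((m' * p ^ s : ℕ) : ℤ) = b ∧ dig p s y = u) ∧
            (∃ x ∈ X, x % ((m * p ^ (s + D) : ℕ) : ℤ) = a ∧ dig p (s + D) x = t) then 1 else 0) := by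
      intro u t
      by_cases hex2 : ∃ x0 y0 : ℤ, x0 ∈ X ∧ y0 ∈ Y ∧
          (x0 % ((m * p ^ (s + D) : ℕ) : ℤ) = a ∧ y0 % ((m' * p ^ s : ℕ) : ℤ) = b ∧
          x0 + (p : ℤ) ^ D * v1 i * y0 = w) ∧ dig p s y0 = u ∧ dig p (s + D) x0 = t
      swap
      · have hzero : ∑ x ∈ X, ∑ y ∈ Y,
          (if (x % ((m * p ^ (s + D) : ℕ) : ℤ) = a ∧ y % ((m' * p ^ s : ℕ) : ℤ) = b ∧
            x + (p : ℤ) ^ D * v1 i * y = w) ∧ dig p s y = u ∧ dig p (s + D) x = t
            then Real.exp (-(c i x y)) else 0) = 0 := by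
          refine Finset.sum_eq_zero fun x hx => Finset.sum_eq_zero fun y hy => ?_
          rw [if_neg]
          rintro ⟨h1, h2, h3⟩
          exact hex2 ⟨x, y, hx, hy, h1, h2, h3⟩
        rw [hzero]
        split_ifs
        · exact zero_le_one
        · exact le_rfl
      obtain ⟨x0, y0, hx0, hy0, ⟨ha0, hb0, hw0⟩, hu0, ht0⟩ := hex2
      have hcond : (v1 i : ZMod p) * u + t = z ∧
            (∃ y ∈ Y, y % ((m' * p ^ s : ℕ) : ℤ) = b ∧ dig p s y = u) ∧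
            (∃ x ∈ X, x % ((m * p ^ (s + D) : ℕ) : ℤ) = a ∧ dig p (s + D) x = t) := by
        refine ⟨?_, ⟨y0, hy0, hb0, hu0⟩, ⟨x0, hx0, ha0, ht0⟩⟩
        rw [← hu0, ← ht0, hz]
        exact dig_add p s D m m' hp (v1 i) w x0 y0 x1 y1 (ha0.trans ha1.symm)
          (hb0.trans hb1.symm) hw0 hw1
      rw [if_pos hcond]
      refine le_trans (le_of_eq ?_) (hadm i (x0 % ((m * p ^ (s + D + 1) : ℕ) : ℤ))
        (y0 % ((m' * p ^ (s + 1) : ℕ) : ℤ)) w)
      refine Finset.sum_congr rfl fun x _ => Finset.sum_congr rfl fun y _ => ?_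
      refine if_congr ?_ rfl rfl
      have e1 := dig_iff p (s + D) m hp hpm hm x x0
      have e2 := dig_iff p s m' hp hpm' hm' y y0
      rw [ha0, ht0] at e1
      rw [hb0, hu0] at e2
      constructor
      · rintro ⟨⟨h1, h2, h3⟩, h4, h5⟩
        exact ⟨e1.1 ⟨h1, h5⟩, e2.1 ⟨h2, h4⟩, h3⟩
      · rintro ⟨h1, h2, h3⟩
        obtain ⟨h4, h5⟩ := e1.2 h1
        obtain ⟨h6, h7⟩ := e2.2 h2
        exact ⟨⟨h4, h6, h3⟩, h7, h5⟩
    -- grouping
    have hgroup : ∑ x ∈ X, ∑ y ∈ Y,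
        (if x % ((m * p ^ (s + D) : ℕ) : ℤ) = a ∧ y % ((m' * p ^ s : ℕ) : ℤ) = b ∧
          x + (p : ℤ) ^ D * v1 i * y = w then
          Real.exp (-(c i x y + cn i (x % ((m * p ^ (s + D) : ℕ) : ℤ))
            (y % ((m' * p ^ s : ℕ) : ℤ)) (dig p s y) (dig p (s + D) x))) else 0) =
        ∑ u : ZMod p, ∑ t : ZMod p, Real.exp (-(cn i a b u t)) * ∑ x ∈ X, ∑ y ∈ Y,
        (if (x % ((m * p ^ (s + D) : ℕ) : ℤ) = a ∧ y % ((m' * p ^ s : ℕ) : ℤ) = b ∧
          x + (p : ℤ) ^ D * v1 i * y = w) ∧ dig p s y = u ∧ dig p (s + D) x = t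
          then Real.exp (-(c i x y)) else 0) := by
      have hpt : ∀ x y : ℤ,
        (if x % ((m * p ^ (s + D) : ℕ) : ℤ) = a ∧ y % ((m' * p ^ s : ℕ) : ℤ) = b ∧
          x + (p : ℤ) ^ D * v1 i * y = w then
          Real.exp (-(c i x y + cn i (x % ((m * p ^ (s + D) : ℕ) : ℤ))
            (y % ((m' * p ^ s : ℕ) : ℤ)) (dig p s y) (dig p (s + D) x))) else 0) =
        ∑ u : ZMod p, ∑ t : ZMod p, Real.exp (-(cn i a b u t)) *
        (if (x % ((m * p ^ (s + D) : ℕ) : ℤ) = a ∧ y % ((m' * p ^ s : ℕ) : ℤ) = b ∧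
          x + (p : ℤ) ^ D * v1 i * y = w) ∧ dig p s y = u ∧ dig p (s + D) x = t
          then Real.exp (-(c i x y)) else 0) := by
        intro x y
        rw [Finset.sum_eq_single (dig p s y), Finset.sum_eq_single (dig p (s + D) x)]
        · by_cases hq : x % ((m * p ^ (s + D) : ℕ) : ℤ) = a ∧ y % ((m' * p ^ s : ℕ) : ℤ) = b ∧
            x + (p : ℤ) ^ D * v1 i * y = w
          · rw [if_pos hq, if_pos ⟨hq, rfl, rfl⟩, hq.1, hq.2.1, neg_add, Real.exp_add, mul_comm]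
          · rw [if_neg hq, if_neg (fun hh => hq hh.1), mul_zero]
        · intro t _ ht
          rw [if_neg (fun hh => ht hh.2.2.symm), mul_zero]
        · intro hh
          exact absurd (Finset.mem_univ _) hh
        · intro u _ hu
          refine Finset.sum_eq_zero fun t _ => ?_
          rw [if_neg (fun hh => hu hh.2.1.symm), mul_zero]
        · intro hh
          exact absurd (Finset.mem_univ _) hh
      have step1 : ∀ x y : ℤ, ∑ u : ZMod p, ∑ t : ZMod p, Real.exp (-(cn i a b u t)) *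
        (if (x % ((m * p ^ (s + D) : ℕ) : ℤ) = a ∧ y % ((m' * p ^ s : ℕ) : ℤ) = b ∧
          x + (p : ℤ) ^ D * v1 i * y = w) ∧ dig p s y = u ∧ dig p (s + D) x = t
          then Real.exp (-(c i x y)) else 0) =
        ∑ q : ZMod p × ZMod p, Real.exp (-(cn i a b q.1 q.2)) *
        (if (x % ((m * p ^ (s + D) : ℕ) : ℤ) = a ∧ y % ((m' * p ^ s : ℕ) : ℤ) = b ∧
          x + (p : ℤ) ^ D * v1 i * y = w) ∧ dig p s y = q.1 ∧ dig p (s + D) x = q.2
          then Real.exp (-(c i x y)) else 0) := by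
        intro x y
        exact (Fintype.sum_prod_type' (fun u t => Real.exp (-(cn i a b u t)) *
        (if (x % ((m * p ^ (s + D) : ℕ) : ℤ) = a ∧ y % ((m' * p ^ s : ℕ) : ℤ) = b ∧
          x + (p : ℤ) ^ D * v1 i * y = w) ∧ dig p s y = u ∧ dig p (s + D) x = t
          then Real.exp (-(c i x y)) else 0))).symm
      rw [Finset.sum_congr rfl (fun x _ => Finset.sum_congr rfl (fun y _ =>
        (hpt x y).trans (step1 x y)))]
      rw [← Fintype.sum_prod_type' (fun u t => Real.exp (-(cn i a b u t)) * ∑ x ∈ X, ∑ y ∈ Y,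
        (if (x % ((m * p ^ (s + D) : ℕ) : ℤ) = a ∧ y % ((m' * p ^ s : ℕ) : ℤ) = b ∧
          x + (p : ℤ) ^ D * v1 i * y = w) ∧ dig p s y = u ∧ dig p (s + D) x = t
          then Real.exp (-(c i x y)) else 0))]
      rw [Finset.sum_congr rfl (fun x _ => Finset.sum_comm)]
      rw [Finset.sum_comm]
      refine Finset.sum_congr rfl fun q _ => ?_
      rw [Finset.mul_sum]
      refine Finset.sum_congr rfl fun x _ => ?_
      rw [Finset.mul_sum]
    rw [hgroup]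
    refine le_trans ?_ (cnK i a b z)
    refine Finset.sum_le_sum fun u _ => Finset.sum_le_sum fun t _ => ?_
    refine le_trans (mul_le_mul_of_nonneg_left (hS u t) (Real.exp_pos _).le) ?_
    split_ifs
    · rw [mul_one]
    · rw [mul_zero]
  · have hsplit : ∑ i, ∑ x ∈ X, ∑ y ∈ Y, (c i x y + cn i (x % ((m * p ^ (s + D) : ℕ) : ℤ))
        (y % ((m' * p ^ s : ℕ) : ℤ)) (dig p s y) (dig p (s + D) x)) =
        ∑ i, ∑ x ∈ X, ∑ y ∈ Y, c i x y + ∑ i, ∑ x ∈ X, ∑ y ∈ Y,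
          cn i (x % ((m * p ^ (s + D) : ℕ) : ℤ))
        (y % ((m' * p ^ s : ℕ) : ℤ)) (dig p s y) (dig p (s + D) x) := by
      simp only [Finset.sum_add_distrib]
    rw [hsplit]
    exact add_le_add le_rfl cnS

end Pool.Agent.Helper80.DC
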