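import Pool.Agent.Helper80.DC.Defs

set_option autoImplicit false

/-!
# DC-10 Pigeon: many popular primes give a common set of primes

Proof. Double counting: `∑_{b ∈ B} |{p ∈ T : p ∣ b}| = ∑_{p ∈ T} |{b ∈ B : p ∣ b}| ≥ c0 |B| |T|`, so the
set `B1` of the `b ∈ B` with `|{p ∈ T : p ∣ b}| ≥ (c0/2) |T|` has at least `(c0/2) |B|` elements
(otherwise the left side is `< (c0/2) |B| |T| + (c0/2) |B| |T|`; if `|T| = 0` everything is trivial).
Pigeonhole on the map `B1 → T.powerset`, `b ↦ {p ∈ T : p ∣ b}` (`2^|T|` values).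
-/

namespace Pool.Agent.Helper80.DC

open Finset

/-- [DC-10] -/
theorem pigeon (B : Finset ℤ) (T : Finset ℕ) (c0 : ℝ) (hc0 : 0 < c0)
    (hc1 : c0 ≤ 2)
    (hT : ∀ p ∈ T, c0 * B.card ≤ ((B.filter (fun b => (p : ℤ) ∣ b)).card : ℝ)) :
    ∃ M ⊆ T, c0 / 2 * T.card ≤ M.card ∧
      c0 / 2 * B.card / 2 ^ T.card ≤
        ((B.filter (fun b => ∀ p ∈ T, ((p : ℤ) ∣ b ↔ p ∈ M))).card : ℝ) := by
  classical
  set f : ℤ → Finset ℕ := fun b => T.filter (fun p => (p : ℤ) ∣ b) with hf
  set B1 := B.filter (fun b => c0 / 2 * T.card ≤ ((f b).card : ℝ)) with hB1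
  have hcard : ∀ b, ((f b).card : ℝ) ≤ T.card := fun b => by
    exact_mod_cast Finset.card_le_card (Finset.filter_subset _ _)
  -- double counting
  have hdc : ∑ b ∈ B, ((f b).card : ℝ) =
      ∑ p ∈ T, ((B.filter (fun b => (p : ℤ) ∣ b)).card : ℝ) := by
    have h1 : ∑ b ∈ B, (f b).card = ∑ p ∈ T, (B.filter (fun b => (p : ℤ) ∣ b)).card := by
      simp only [hf, Finset.card_filter]
      exact Finset.sum_comm
    exact_mod_cast h1
  have hlow : c0 * B.card * T.card ≤ ∑ b ∈ B, ((f b).card : ℝ) := by
    rw [hdc]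
    calc c0 * B.card * T.card = ∑ _p ∈ T, c0 * (B.card : ℝ) := by
          rw [Finset.sum_const, nsmul_eq_mul]
          ring
      _ ≤ _ := Finset.sum_le_sum hT
  have hupp : ∑ b ∈ B, ((f b).card : ℝ) ≤ B1.card * T.card + c0 / 2 * T.card * B.card := by
    calc ∑ b ∈ B, ((f b).card : ℝ)
        ≤ ∑ b ∈ B, ((if c0 / 2 * T.card ≤ ((f b).card : ℝ) then (T.card : ℝ) else 0) +
            c0 / 2 * T.card) := by
          apply Finset.sum_le_sum
          intro b _
          have h0 : 0 ≤ c0 / 2 * (T.card : ℝ) := by positivity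
          split_ifs with h
          · have := hcard b
            linarith
          · push Not at h
            linarith
      _ = B1.card * T.card + c0 / 2 * T.card * B.card := by
          rw [Finset.sum_add_distrib, ← Finset.sum_filter, Finset.sum_const, Finset.sum_const,
            nsmul_eq_mul, nsmul_eq_mul]
          ring
  have hB1c : c0 / 2 * B.card ≤ B1.card := by
    rcases Nat.eq_zero_or_pos T.card with h0 | h0
    · have h1 : B1 = B := by
        rw [hB1, Finset.filter_true_of_mem]
        intro b _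
        rw [h0]
        simp
      rw [h1]
      have : (0 : ℝ) ≤ B.card := Nat.cast_nonneg _
      nlinarith
    · have h1 : (0 : ℝ) < T.card := by exact_mod_cast h0
      have h2 : c0 * B.card * T.card ≤ B1.card * T.card + c0 / 2 * T.card * B.card := hlow.trans hupp
      have h3 : (c0 / 2 * B.card) * T.card ≤ B1.card * T.card := by linarith
      exact le_of_mul_le_mul_right h3 h1
  rcases B1.eq_empty_or_nonempty with hemp | hne
  · rw [hemp, Finset.card_empty, Nat.cast_zero] at hB1c
    refine ⟨T, Finset.Subset.refl _, ?_, ?_⟩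
    · have : (0 : ℝ) ≤ T.card := Nat.cast_nonneg _
      nlinarith
    · have h1 : c0 / 2 * (B.card : ℝ) / 2 ^ T.card ≤ 0 :=
        div_nonpos_of_nonpos_of_nonneg hB1c (by positivity)
      exact h1.trans (Nat.cast_nonneg _)
  · have hmaps : ∀ b ∈ B1, f b ∈ T.powerset := fun b _ =>
      Finset.mem_powerset.mpr (Finset.filter_subset _ _)
    have hcount : T.powerset.card • ((B1.card : ℝ) / 2 ^ T.card) ≤ (B1.card : ℝ) := by
      rw [Finset.card_powerset, nsmul_eq_mul]
      push_cast
      rw [mul_div_cancel₀]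
      positivity
    obtain ⟨M, hM, hfib⟩ := Finset.exists_le_card_fiber_of_nsmul_le_card_of_maps_to
      hmaps ⟨∅, Finset.empty_mem_powerset T⟩ hcount
    have hpos : (0 : ℝ) < (B1.card : ℝ) / 2 ^ T.card := by
      have : 0 < B1.card := Finset.card_pos.mpr hne
      positivity
    have hfpos : 0 < (B1.filter (fun b => f b = M)).card := by
      have := lt_of_lt_of_le hpos hfib
      exact_mod_cast this
    obtain ⟨b, hb⟩ := Finset.card_pos.mp hfpos
    rw [Finset.mem_filter] at hb
    refine ⟨M, Finset.mem_powerset.mp hM, ?_, ?_⟩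
    · have h1 := (Finset.mem_filter.mp hb.1).2
      rw [hb.2] at h1
      exact h1
    · calc c0 / 2 * (B.card : ℝ) / 2 ^ T.card ≤ (B1.card : ℝ) / 2 ^ T.card := by gcongr
        _ ≤ ((B1.filter (fun b => f b = M)).card : ℝ) := hfib
        _ ≤ _ := by
            norm_cast
            apply Finset.card_le_card
            intro b hb
            rw [Finset.mem_filter] at hb ⊢
            refine ⟨(Finset.mem_filter.mp hb.1).1, fun p hp => ?_⟩
            have h2 : p ∈ f b ↔ p ∈ M := by rw [hb.2]
            rw [← h2, hf]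
            simp [hp]

end Pool.Agent.Helper80.DC
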