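import Pool.Agent.Helper80.DC.Kfold
import Pool.Agent.Helper80.DC.Pigeon

set_option autoImplicit false

/-!
# DC-11 Popular: many popular primes
-/

namespace Pool.Agent.Helper80.DC

open Finset

theorem prod_dvd_of_primes {M : Finset ℕ} (hM : ∀ p ∈ M, p.Prime) {b : ℤ}
    (h : ∀ p ∈ M, (p : ℤ) ∣ b) : ((∏ p ∈ M, p : ℕ) : ℤ) ∣ b := by
  have h1 : (∏ p ∈ M, p) ∣ b.natAbs := by
    apply Finset.prod_primes_dvd
    · intro p hp; exact (hM p hp).prime
    · intro p hp; exact Int.natCast_dvd.1 (h p hp)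
  exact Int.natCast_dvd.2 h1

theorem squarefree_prod {M : Finset ℕ} (hM : ∀ p ∈ M, p.Prime) : Squarefree (∏ p ∈ M, p) := by
  have h := Nat.squarefree_iff_prime_squarefree (n := ∏ p ∈ M, p)
  rw [h]
  intro q hq hd
  have hqM : q ∣ ∏ p ∈ M, p := (Dvd.intro _ rfl).trans hd
  obtain ⟨p, hp, hqp⟩ := (hq.prime.dvd_finset_prod_iff _).1 hqM
  have hqp' : q = p := (Nat.prime_dvd_prime_iff_eq hq (hM p hp)).1 hqp
  subst hqp'
  rw [← Finset.mul_prod_erase M (fun p => p) hp] at hd
  have h2 : q ∣ ∏ x ∈ M.erase q, x := (Nat.mul_dvd_mul_iff_left hq.pos).1 hd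
  obtain ⟨r, hr, hqr⟩ := (hq.prime.dvd_finset_prod_iff _).1 h2
  have := (Nat.prime_dvd_prime_iff_eq hq (hM r (mem_of_mem_erase hr))).1 hqr
  exact (ne_of_mem_erase hr) this.symm

theorem popular (k : ℕ) (hk : 1 ≤ k) (ε δ c0 : ℝ) (hε : 0 < ε) (hεk : ε < k) (hδ : 0 < δ)
    (hc0 : 0 < c0) (hc01 : c0 ≤ 1) :
    ∃ c : ℝ, 0 < c ∧ ∃ N0 : ℝ, ∀ A B : Finset ℤ, B ⊆ A → B.Nonempty →
      N0 ≤ Real.log (A.card : ℝ) →
      (A.card : ℝ) ^ (1 - c) ≤ (B.card : ℝ) → ∀ T : Finset ℕ, (∀ p ∈ T, p.Prime) →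
      c0 / 2 * Real.log (A.card : ℝ) ≤ (T.card : ℝ) →
      (∀ p ∈ T, c0 * (B.card : ℝ) ≤ ((B.filter (fun b => (p : ℤ) ∣ b)).card : ℝ)) →
      (∀ a ∈ B, ∀ d : ℕ, Squarefree d → (d : ℤ) ∣ a → (∀ p ∈ d.primeFactors, p ∈ T) →
        (d.primeFactors.card : ℝ) ≤ δ * Real.log (A.card : ℝ) → a / (d : ℤ) ∈ A) →
      c * (A.card : ℝ) ^ ((k : ℝ) - ε) ≤
        (((Fintype.piFinset (fun _ : Fin k => A)).image
              (fun f : Fin k → ℤ => ∑ i, f i)).card : ℝ) := by
  classical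
  have hk0 : (0 : ℝ) < k := by exact_mod_cast hk
  set c3 := min (δ / 2) (min (c0 / 2) (ε / (8 * k))) with hc3def
  have hc3 : 0 < c3 := by rw [hc3def]; positivity
  have h31 : c3 ≤ δ / 2 := min_le_left _ _
  have h32 : c3 ≤ c0 / 2 := (min_le_right _ _).trans (min_le_left _ _)
  have h33 : c3 ≤ ε / (8 * k) := (min_le_right _ _).trans (min_le_right _ _)
  clear_value c3
  have hδ1 : 0 < c0 * c3 / 2 := by positivity
  obtain ⟨n0, hn0⟩ := kfold k (ε / 2) (c0 * c3 / 2) (by positivity) hδ1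
  refine ⟨min (ε / (8 * k)) ((c0 / 4) ^ k), by positivity, max (2 / δ) (2 * n0 / (c0 * c3)), ?_⟩
  set c := min (ε / (8 * k)) ((c0 / 4) ^ k) with hcdef
  have hc1 : c ≤ ε / (8 * k) := min_le_left _ _
  have hc2 : c ≤ (c0 / 4) ^ k := min_le_right _ _
  have hcpos : 0 < c := by rw [hcdef]; positivity
  clear_value c
  intro A B hBA hBne hL hcard T hT hTcard hpop hdiv
  have hL1 : 2 / δ ≤ Real.log (A.card : ℝ) := (le_max_left _ _).trans hL
  have hL2 : 2 * n0 / (c0 * c3) ≤ Real.log (A.card : ℝ) := (le_max_right _ _).trans hL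
  set L := Real.log (A.card : ℝ) with hLdef
  have hAne : A.Nonempty := hBne.mono hBA
  have hA1 : (1 : ℝ) ≤ A.card := by exact_mod_cast card_pos.mpr hAne
  have hA0 : (0 : ℝ) < A.card := by linarith
  have hL0 : 0 ≤ L := Real.log_nonneg hA1
  -- the set `T'`
  set t := ⌈c3 * L⌉₊ with htdef
  have ht1 : c3 * L ≤ t := Nat.le_ceil _
  have ht2 : (t : ℝ) < c3 * L + 1 := Nat.ceil_lt_add_one (by positivity)
  have htT : t ≤ T.card := by
    rw [htdef, Nat.ceil_le]
    refine le_trans ?_ hTcard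
    exact mul_le_mul_of_nonneg_right h32 hL0
  obtain ⟨T', hT'T, hT'card⟩ := Finset.exists_subset_card_eq htT
  obtain ⟨M, hMT', hMcard, hMB⟩ := pigeon B T' c0 hc0 (by linarith) (fun p hp => hpop p (hT'T hp))
  rw [hT'card] at hMcard hMB
  set B2 := B.filter (fun b => ∀ p ∈ T', ((p : ℤ) ∣ b ↔ p ∈ M)) with hB2
  have hMprime : ∀ p ∈ M, p.Prime := fun p hp => hT p (hT'T (hMT' hp))
  set n : ℕ := ∏ p ∈ M, p with hn
  have hnpos : 0 < n := by
    rw [hn]; exact prod_pos (fun p hp => (hMprime p hp).pos)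
  have hnz : (n : ℤ) ≠ 0 := by exact_mod_cast hnpos.ne'
  have hndvd : ∀ b ∈ B2, (n : ℤ) ∣ b := by
    intro b hb
    rw [hn]
    apply prod_dvd_of_primes hMprime
    intro p hp
    exact ((mem_filter.1 hb).2 p (hMT' hp)).2 hp
  set B' := B2.image (fun b => b / (n : ℤ)) with hB'
  have hB'card : B'.card = B2.card := by
    rw [hB']
    apply card_image_of_injOn
    intro x hx y hy hxy
    simp only at hxy
    have h1 := Int.ediv_mul_cancel (hndvd x hx)
    have h2 := Int.ediv_mul_cancel (hndvd y hy)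
    rw [← h1, ← h2, hxy]
  have hBpos : (0 : ℝ) < B.card := by exact_mod_cast card_pos.mpr hBne
  have hB2pos : (0 : ℝ) < B2.card := by
    refine lt_of_lt_of_le ?_ hMB
    positivity
  have hB'ne : B'.Nonempty := by
    rw [← card_pos, hB'card]; exact_mod_cast hB2pos
  -- divisors
  have hcl : ∀ G ⊆ M, ∀ y ∈ B', (∏ p ∈ G, (p : ℤ)) * y ∈ A := by
    intro G hG y hy
    obtain ⟨b, hb, rfl⟩ := mem_image.1 hy
    have hbB : b ∈ B := (mem_filter.1 hb).1
    set d : ℕ := ∏ p ∈ M \ G, p with hd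
    have hprod : (∏ p ∈ G, p) * d = n := by
      rw [hd, hn, mul_comm]; exact Finset.prod_sdiff hG
    have hdd : (d : ℤ) ∣ b := by
      have : (d : ℤ) ∣ (n : ℤ) := by
        rw [← hprod]; push_cast; exact Dvd.intro_left _ rfl
      exact this.trans (hndvd b hb)
    have hdne : d ≠ 0 := by
      intro h; rw [h, mul_zero] at hprod; omega
    have hMGp : ∀ p ∈ M \ G, p.Prime := fun p hp => hMprime p (mem_sdiff.1 hp).1
    have hdf : d.primeFactors = M \ G := by
      rw [hd]; exact Nat.primeFactors_prod hMGp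
    have hmem : b / (d : ℤ) ∈ A := by
      apply hdiv b hbB d
      · rw [hd]; exact squarefree_prod hMGp
      · exact hdd
      · intro p hp
        rw [hdf] at hp
        exact hT'T (hMT' (mem_sdiff.1 hp).1)
      · rw [hdf]
        have h1 : ((M \ G).card : ℝ) ≤ t := by
          rw [← hT'card]
          exact_mod_cast card_le_card (sdiff_subset.trans hMT')
        have h2 : 1 ≤ δ / 2 * L := by
          have := mul_le_mul_of_nonneg_left hL1 (by positivity : (0 : ℝ) ≤ δ / 2)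
          have h3 : δ / 2 * (2 / δ) = 1 := by field_simp
          linarith
        have h3 : c3 * L ≤ δ / 2 * L := mul_le_mul_of_nonneg_right h31 hL0
        linarith
    have hdz : (d : ℤ) ≠ 0 := by exact_mod_cast hdne
    have heq : (∏ p ∈ G, (p : ℤ)) * (b / (n : ℤ)) = b / (d : ℤ) := by
      obtain ⟨y, hy⟩ := hndvd b hb
      have hn' : (n : ℤ) = (∏ p ∈ G, (p : ℤ)) * (d : ℤ) := by
        rw [← hprod]; push_cast; ring
      rw [hy, Int.mul_ediv_cancel_left _ hnz, hn', mul_assoc, mul_comm (d : ℤ) y, ← mul_assoc,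
        Int.mul_ediv_cancel _ hdz]
    rw [heq]; exact hmem
  -- apply kfold
  have hB'B : (B'.card : ℝ) ≤ A.card := by
    rw [hB'card]
    exact_mod_cast (card_le_card (filter_subset _ _)).trans (card_le_card hBA)
  have hB'pos : (0 : ℝ) < B'.card := by exact_mod_cast card_pos.mpr hB'ne
  have hn0M : n0 ≤ M.card := by
    have h1 : (n0 : ℝ) ≤ c0 / 2 * t := by
      have h2 : (n0 : ℝ) = c0 / 2 * (c3 * (2 * n0 / (c0 * c3))) := by
        field_simp
      rw [h2]
      apply mul_le_mul_of_nonneg_left _ (by positivity)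
      exact (mul_le_mul_of_nonneg_left hL2 hc3.le).trans ht1
    exact_mod_cast h1.trans hMcard
  have hδM : c0 * c3 / 2 * Real.log (B'.card : ℝ) ≤ M.card := by
    refine le_trans ?_ hMcard
    have h1 : Real.log (B'.card : ℝ) ≤ L := Real.log_le_log hB'pos hB'B
    have h2 : c0 * c3 / 2 * Real.log (B'.card : ℝ) ≤ c0 * c3 / 2 * L :=
      mul_le_mul_of_nonneg_left h1 hδ1.le
    have h3 : c0 / 2 * (c3 * L) ≤ c0 / 2 * t := mul_le_mul_of_nonneg_left ht1 (by positivity)
    linarith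
  obtain ⟨G, hG, hGcard⟩ := hn0 B' M hB'ne hMprime hn0M hδM
  have hsub : ((Fintype.piFinset fun _ : Fin k => B').image
          (fun f => ∑ i, (∏ p ∈ G i, (p : ℤ)) * f i)) ⊆
      ((Fintype.piFinset (fun _ : Fin k => A)).image (fun f : Fin k → ℤ => ∑ i, f i)) := by
    intro w hw
    obtain ⟨f, hf, rfl⟩ := mem_image.1 hw
    rw [Fintype.mem_piFinset] at hf
    apply mem_image.2
    refine ⟨fun i => (∏ p ∈ G i, (p : ℤ)) * f i, ?_, rfl⟩
    rw [Fintype.mem_piFinset]
    intro i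
    exact hcl (G i) (hG i) (f i) (hf i)
  have hfin : (B'.card : ℝ) ^ ((k : ℝ) - ε / 2) ≤
      (((Fintype.piFinset (fun _ : Fin k => A)).image
              (fun f : Fin k → ℤ => ∑ i, f i)).card : ℝ) :=
    hGcard.trans (by exact_mod_cast card_le_card hsub)
  refine le_trans ?_ hfin
  -- the size of `B'`
  have hexp : (0 : ℝ) < (k : ℝ) - ε / 2 := by linarith
  have hlow : c0 / 4 * (A.card : ℝ) ^ (1 - c - c3) ≤ B'.card := by
    rw [hB'card]
    refine le_trans ?_ hMB
    have h2t : (2 : ℝ) ^ t ≤ 2 * (A.card : ℝ) ^ c3 := by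
      have h1 : (2 : ℝ) ^ t = Real.exp (t * Real.log 2) := by
        rw [Real.exp_nat_mul, Real.exp_log (by norm_num)]
      have h2 : (A.card : ℝ) ^ c3 = Real.exp (c3 * L) := by
        rw [Real.rpow_def_of_pos hA0, mul_comm]
      have h3 : (2 : ℝ) = Real.exp (Real.log 2) := (Real.exp_log (by norm_num)).symm
      rw [h1, h2]
      have h4 : 2 * Real.exp (c3 * L) = Real.exp (Real.log 2 + c3 * L) := by
        rw [Real.exp_add, Real.exp_log (by norm_num)]
      rw [h4]
      apply Real.exp_le_exp.2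
      have h5 : Real.log 2 ≤ 1 := by
        have := Real.log_two_lt_d9; linarith
      have h6 : 0 < Real.log 2 := Real.log_pos (by norm_num)
      have h7 : (t : ℝ) * Real.log 2 ≤ (c3 * L + 1) * Real.log 2 :=
        mul_le_mul_of_nonneg_right ht2.le h6.le
      have h8 : c3 * L * Real.log 2 ≤ c3 * L := by
        have : 0 ≤ c3 * L := by positivity
        nlinarith
      nlinarith
    rw [le_div_iff₀ (by positivity)]
    calc c0 / 4 * (A.card : ℝ) ^ (1 - c - c3) * 2 ^ t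
        ≤ c0 / 4 * (A.card : ℝ) ^ (1 - c - c3) * (2 * (A.card : ℝ) ^ c3) := by
          apply mul_le_mul_of_nonneg_left h2t (by positivity)
      _ = c0 / 2 * ((A.card : ℝ) ^ (1 - c - c3) * (A.card : ℝ) ^ c3) := by ring
      _ = c0 / 2 * (A.card : ℝ) ^ (1 - c) := by
          rw [← Real.rpow_add hA0]; congr 2; ring
      _ ≤ c0 / 2 * B.card := mul_le_mul_of_nonneg_left hcard (by positivity)
  have hstep : (c0 / 4 * (A.card : ℝ) ^ (1 - c - c3)) ^ ((k : ℝ) - ε / 2) ≤
      (B'.card : ℝ) ^ ((k : ℝ) - ε / 2) := by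
    apply Real.rpow_le_rpow (by positivity) hlow hexp.le
  refine le_trans ?_ hstep
  rw [Real.mul_rpow (by positivity) (by positivity), ← Real.rpow_mul hA0.le]
  apply mul_le_mul
  · refine hc2.trans ?_
    rw [← Real.rpow_natCast]
    apply Real.rpow_le_rpow_of_exponent_ge (by positivity) (by linarith) (by linarith)
  · apply Real.rpow_le_rpow_of_exponent_le hA1
    have h1 : c + c3 ≤ ε / (4 * k) := by
      have : ε / (8 * k) + ε / (8 * k) = ε / (4 * k) := by field_simp; norm_num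
      linarith
    have h2 : (c + c3) * k ≤ ε / 4 := by
      have := mul_le_mul_of_nonneg_right h1 hk0.le
      have h3 : ε / (4 * k) * k = ε / 4 := by field_simp
      linarith
    have h4 : (c + c3) * ((k : ℝ) - ε / 2) ≤ ε / 4 := by
      have : (c + c3) * ((k : ℝ) - ε / 2) ≤ (c + c3) * k :=
        mul_le_mul_of_nonneg_left (by linarith) (by linarith)
      linarith
    nlinarith
  · positivity
  · positivity

end Pool.Agent.Helper80.DC
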