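import Pool.Agent.Helper2.EFreiman

set_option autoImplicit false

namespace Pool.Agent.Helper80.DC.PC

open Finset Pool.Agent.Helper5 Pool.Agent.Helper2.E

/-- **The Erdős–Szemerédi conjecture, for all `k`, for sets with few popular primes.**

For every `k ≥ 1` and `ε > 0` there is `c > 0` with the following property. Let `B ⊆ A` be finite
sets of integers with `0 ∉ B` and `|B| ≥ |A|^(1-c)`, and let `φ` be a map to exponent vectors that
is a Freiman homomorphism of order `k` on `B` for multiplication, each coordinate of which is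
constant on all but at most `c |B|` elements of `B`. If any two elements of `B` with the same
exponent vector lie in the same coset of a multiplicative group of rational numbers generated by
at most `c log |A|` elements, then `max (|kA|, |A^k|) ≥ c |A|^(k - ε)`.

See `primes_case` below for the case of the valuations at all but `c log |A|` primes. -/
theorem popular_general : ∀ k : ℕ, 1 ≤ k → ∀ ε : ℝ, 0 < ε → ∃ c : ℝ, 0 < c ∧
    ∀ A B : Finset ℤ, A.Nonempty → B ⊆ A → (0 : ℤ) ∉ B →
      (A.card : ℝ) ^ (1 - c) ≤ (B.card : ℝ) →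
      ∀ (ι : Type) (φ : ℤ → ι →₀ ℤ),
      (∀ x y : Fin k → ℤ, (∀ j, x j ∈ B) → (∀ j, y j ∈ B) → ∏ j, x j = ∏ j, y j →
        ∑ j, φ (x j) = ∑ j, φ (y j)) →
      (∀ i : ι, ∃ z : ℤ, ((B.filter (fun b => φ b i ≠ z)).card : ℝ) ≤ c * (B.card : ℝ)) →
      ∀ T : Finset ℚˣ, (T.card : ℝ) ≤ c * Real.log (A.card : ℝ) →
      (∀ b ∈ B, ∀ b' ∈ B, φ b = φ b' → ∃ γ ∈ Subgroup.closure (T : Set ℚˣ),
        (b' : ℚ) = (γ : ℚ) * (b : ℚ)) →
      c * (A.card : ℝ) ^ ((k : ℝ) - ε) ≤
        max
          (((Fintype.piFinset (fun _ : Fin k => A)).image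
              (fun f : Fin k → ℤ => ∑ i, f i)).card : ℝ)
          (((Fintype.piFinset (fun _ : Fin k => A)).image
              (fun f : Fin k → ℤ => ∏ i, f i)).card : ℝ) := by
  intro k hk ε hε
  obtain ⟨c', hc', hcore⟩ := coreH k hk (ε / 2) (by positivity)
  have hk0 : (0 : ℝ) < k := by exact_mod_cast hk
  refine ⟨min (c' / 2) (min (1 / 2) (ε / (2 * k))), by positivity, ?_⟩
  set c := min (c' / 2) (min (1 / 2) (ε / (2 * k))) with hc
  have hc1 : c ≤ c' / 2 := min_le_left _ _
  have hc2 : c ≤ 1 / 2 := (min_le_right _ _).trans (min_le_left _ _)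
  have hc3 : c ≤ ε / (2 * k) := (min_le_right _ _).trans (min_le_right _ _)
  have hcpos : 0 < c := by rw [hc]; positivity
  have hcc' : c ≤ c' := by linarith
  clear_value c
  intro A B hA hBA hB0 hcard ι φ hφ hpop T hT hfib
  obtain ⟨hBne, hkey, hlift⟩ := lift k hk ε hε hc' hc1 hc2 hc3 hcpos hA hBA hcard
  apply hlift
  refine hcore ι B hBne hB0 φ T hφ ?_ (hT.trans hkey) hfib
  intro i
  obtain ⟨z, hz⟩ := hpop i
  refine ⟨z, hz.trans ?_⟩
  gcongr

/-! ### The valuations at all but few primes -/

/-- a prime as a unit of `ℚ` -/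
def unitPr (p : Pr) : ℚˣ := Units.mk0 ((p : ℕ) : ℚ) (primes_pos p).ne'

/-- `-1` and the primes of `T`, as units of `ℚ` -/
def genT (T : Finset ℕ) : Finset ℚˣ := insert (-1 : ℚˣ) ((T.subtype Nat.Prime : Finset Pr).image unitPr)

theorem card_genT (T : Finset ℕ) : (genT T).card ≤ T.card + 1 := by
  refine (card_insert_le _ _).trans ?_
  apply Nat.add_le_add_right
  refine card_image_le.trans ?_
  rw [card_subtype]
  exact card_filter_le _ _

/-- integers with the same valuations outside `T` differ by an element of the group generated by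
the primes in `T` and `-1`. -/
theorem exists_unit (T : Finset ℕ) {a b : ℤ} (ha : a ≠ 0) (hb : b ≠ 0)
    (h : offT (T : Set ℕ) a = offT (T : Set ℕ) b) :
    ∃ γ ∈ Subgroup.closure (genT T : Set ℚˣ), (b : ℚ) = (γ : ℚ) * (a : ℚ) := by
  classical
  set d : Pr →₀ ℤ := fac b - fac a with hd
  set u : ℚˣ := d.prod (fun p n => unitPr p ^ n) with hu
  have hu1 : u ∈ Subgroup.closure (genT T : Set ℚˣ) := by
    rw [hu, Finsupp.prod]
    apply Subgroup.prod_mem
    intro p hp
    by_cases hpT : (p : ℕ) ∈ T
    · apply Subgroup.zpow_mem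
      apply Subgroup.subset_closure
      apply mem_coe.2
      apply mem_insert_of_mem
      exact mem_image.2 ⟨p, mem_subtype.2 hpT, rfl⟩
    · exfalso
      rw [Finsupp.mem_support_iff] at hp
      apply hp
      have h1 := DFunLike.congr_fun h p
      rw [offT_apply, offT_apply, if_neg (by exact_mod_cast hpT),
        if_neg (by exact_mod_cast hpT)] at h1
      rw [hd, Finsupp.sub_apply, fac_apply, fac_apply, h1, sub_self]
  have hu2 : (u : ℚ) = ev (fun p : Pr => ((p : ℕ) : ℚ)) d := by
    rw [hu, Finsupp.prod, Units.coe_prod, ev, Finsupp.prod]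
    apply prod_congr rfl
    intro p _
    rw [Units.val_zpow_eq_zpow_val]
    rfl
  have hu3 : |(b : ℚ)| = (u : ℚ) * |(a : ℚ)| := by
    rw [hu2, ev_fac hb, ev_fac ha, ← ev_add primes_pos, hd, sub_add_cancel]
  have hneg : (-1 : ℚˣ) ∈ Subgroup.closure (genT T : Set ℚˣ) :=
    Subgroup.subset_closure (mem_coe.2 (mem_insert_self _ _))
  have hcases : (b : ℚ) = (u : ℚ) * a ∨ (b : ℚ) = -((u : ℚ) * a) := by
    have hupos : 0 < (u : ℚ) := by rw [hu2]; exact ev_pos primes_pos d
    rw [← abs_eq_abs, abs_mul, abs_of_pos hupos]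
    exact hu3
  rcases hcases with h | h
  · exact ⟨u, hu1, h⟩
  · refine ⟨-1 * u, Subgroup.mul_mem _ hneg hu1, ?_⟩
    rw [h]
    simp

/-- The case of the valuations at primes: the Erdős–Szemerédi inequality holds, with the full
exponent and for all `k`, if `v_p` is constant on all but at most `c |B|` elements of `B` for all
but at most `c log |A|` primes `p`. -/
theorem primes_case : ∀ k : ℕ, 1 ≤ k → ∀ ε : ℝ, 0 < ε → ∃ c : ℝ, 0 < c ∧
    ∀ A B : Finset ℤ, A.Nonempty → B ⊆ A → (0 : ℤ) ∉ B →
      (A.card : ℝ) ^ (1 - c) ≤ (B.card : ℝ) →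
      ∀ T : Finset ℕ, (T.card : ℝ) ≤ c * Real.log (A.card : ℝ) →
      (∀ p : ℕ, p.Prime → p ∉ T →
        ∃ z : ℕ, ((B.filter (fun b => padicValInt p b ≠ z)).card : ℝ) ≤ c * (B.card : ℝ)) →
      c * (A.card : ℝ) ^ ((k : ℝ) - ε) ≤
        max
          (((Fintype.piFinset (fun _ : Fin k => A)).image
              (fun f : Fin k → ℤ => ∑ i, f i)).card : ℝ)
          (((Fintype.piFinset (fun _ : Fin k => A)).image
              (fun f : Fin k → ℤ => ∏ i, f i)).card : ℝ) := by
  intro k hk ε hε
  obtain ⟨c', hc'0, hgen⟩ := popular_general k hk ε hε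
  have hk0 : (0 : ℝ) < k := by exact_mod_cast hk
  -- for `log |A| ≥ 2 / c'` we have room for `-1`
  refine ⟨min (c' / 2) (Real.exp (-(k * (2 / c')))),
    lt_min (by positivity) (Real.exp_pos _), ?_⟩
  set c := min (c' / 2) (Real.exp (-(k * (2 / c')))) with hc
  have hc1 : c ≤ c' / 2 := min_le_left _ _
  have hc2 : c ≤ Real.exp (-(k * (2 / c'))) := min_le_right _ _
  have hc0 : 0 < c := lt_min (by positivity) (Real.exp_pos _)
  have hcc' : c ≤ c' := by linarith
  clear_value c
  intro A B hA hBA hB0 hcard T hT hpop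
  have hn1 : 1 ≤ A.card := card_pos.mpr hA
  have hn1' : (1 : ℝ) ≤ A.card := by exact_mod_cast hn1
  have hnpos : (0 : ℝ) < A.card := by linarith
  have hL0 : 0 ≤ Real.log (A.card : ℝ) := Real.log_nonneg hn1'
  by_cases hL : Real.log (A.card : ℝ) ≤ 2 / c'
  · have hmax1 : (1 : ℝ) ≤ max ((kS k A).card : ℝ) ((kP k A).card : ℝ) := by
      apply le_max_of_le_left
      exact_mod_cast card_pos.mpr (kS_nonempty k hA)
    refine le_trans ?_ hmax1
    calc c * (A.card : ℝ) ^ ((k : ℝ) - ε)
        ≤ Real.exp (-(k * (2 / c'))) * Real.exp (k * (2 / c')) := by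
          apply mul_le_mul hc2 _ (by positivity) (Real.exp_pos _).le
          rw [Real.rpow_def_of_pos hnpos]
          apply Real.exp_le_exp.2
          have h1 : Real.log (A.card : ℝ) * ((k : ℝ) - ε) ≤ Real.log (A.card : ℝ) * k := by
            apply mul_le_mul_of_nonneg_left _ hL0
            linarith
          refine h1.trans ?_
          rw [mul_comm]
          exact mul_le_mul_of_nonneg_left hL hk0.le
      _ = 1 := by rw [← Real.exp_add, neg_add_cancel, Real.exp_zero]
  · push Not at hL
    classical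
    have hmain := hgen A B hA hBA hB0 ?_ Pr (offT (T : Set ℕ)) ?_ ?_
      (genT T) ?_ ?_
    · refine le_trans ?_ hmain
      gcongr
    · refine le_trans ?_ hcard
      apply Real.rpow_le_rpow_of_exponent_le hn1'
      linarith
    · intro x y hx hy hxy
      have hx0 : ∀ j, x j ≠ 0 := fun j h => hB0 (h ▸ hx j)
      have hy0 : ∀ j, y j ≠ 0 := fun j h => hB0 (h ▸ hy j)
      have key : ∀ (s : Finset (Fin k)) (w : Fin k → ℤ), (∀ j, w j ≠ 0) →
          ∑ j ∈ s, offT (T : Set ℕ) (w j) = offT (T : Set ℕ) (∏ j ∈ s, w j) := by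
        intro s w hw
        induction s using Finset.induction_on with
        | empty =>
          ext p
          rw [sum_empty, prod_empty, offT_apply]
          simp
        | insert a s has ih =>
          rw [sum_insert has, prod_insert has, ih,
            offT_mul _ (hw a) (prod_ne_zero_iff.2 (fun j _ => hw j))]
      rw [key _ x hx0, key _ y hy0, hxy]
    · intro p
      by_cases hpT : (p : ℕ) ∈ T
      · refine ⟨0, ?_⟩
        have h0 : B.filter (fun b => offT (T : Set ℕ) b p ≠ 0) = ∅ := by
          apply filter_false_of_mem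
          intro b _ hb
          rw [offT_apply, if_pos (by exact_mod_cast hpT)] at hb
          exact hb rfl
        rw [h0]
        simp only [card_empty, Nat.cast_zero]
        positivity
      · obtain ⟨z, hz⟩ := hpop p p.2 hpT
        refine ⟨z, ?_⟩
        have h1 : B.filter (fun b => offT (T : Set ℕ) b p ≠ (z : ℤ)) =
            B.filter (fun b => padicValInt p b ≠ z) := by
          apply filter_congr
          intro b _
          rw [offT_apply, if_neg (by exact_mod_cast hpT)]
          norm_cast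
        rw [h1]
        refine hz.trans ?_
        gcongr
    · have h2 : ((genT T).card : ℝ) ≤ T.card + 1 := by exact_mod_cast card_genT T
      refine h2.trans ?_
      have h3 : (T.card : ℝ) ≤ c' / 2 * Real.log (A.card : ℝ) :=
        hT.trans (mul_le_mul_of_nonneg_right hc1 hL0)
      have h4 : 1 ≤ c' / 2 * Real.log (A.card : ℝ) := by
        have h5 : c' / 2 * (2 / c') = 1 := by field_simp
        calc (1 : ℝ) = c' / 2 * (2 / c') := h5.symm
          _ ≤ _ := mul_le_mul_of_nonneg_left hL.le (by positivity)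
      linarith
    · intro b hb b' hb' h
      exact exists_unit T (fun h => hB0 (h ▸ hb)) (fun h => hB0 (h ▸ hb')) h

end Pool.Agent.Helper80.DC.PC
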